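import Pool.Agent.Run7.h715.PL.Mach
import Pool.Agent.NPC.Prog

set_option autoImplicit false

/-!
# Planar networks: correctness of the algorithm
-/

namespace Run7.h715.PL

open Pool.Agent.H558R2 Pool.Agent.H622R3.SM

/-! ### The store after the first program -/

/-- The store after the first program. -/
noncomputable def store {m n : ℕ} (A : Matrix (Fin m) (Fin n) ℝ) (b : Fin m → ℝ) (r : Reg) : ℝ :=
  if r.head? = some 9 then start (mat A b) (rhs m n) r.tail else start A b r

theorem store_cons {m n : ℕ} (A : Matrix (Fin m) (Fin n) ℝ) (b : Fin m → ℝ) (r : Reg) :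
    store A b (9 :: r) = start (mat A b) (rhs m n) r := by
  simp [store]

theorem mem_base_reg {N i j κ : ℕ} {t : Term} (ht : t ∈ base N i j κ) :
    t.2.2 = [2] ∨ t.2.2 = [1, i] ∨ t.2.2 = [0, i, j] := by
  unfold base at ht
  split_ifs at ht <;> simp only [List.mem_cons, List.not_mem_nil, or_false] at ht
  all_goals
    first
    | (rcases ht with rfl | rfl | rfl)
    | (rcases ht with rfl | rfl)
    | subst ht
  all_goals simp

theorem mem_terms_reg {N r : ℕ} {t : Term} (ht : t ∈ terms N r) :
    ∃ i j, t.2.2 = [2] ∨ t.2.2 = [1, i] ∨ t.2.2 = [0, i, j] := by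
  obtain ⟨t', h1, -, h2⟩ := mem_cterms ht
  rw [← h2]
  exact ⟨_, _, mem_base_reg h1⟩

theorem mem_prologue {m n : ℕ} {I : Instr} (hI : I ∈ prologue m n) :
    (∃ r < 14 * (m * (n + 1)), ∃ t ∈ terms (n + 1) r, I = wr r t) ∨
      I = ⟨Op.add, [9, 1, 14 * n + 2], [4], [2]⟩ ∨ I = ⟨Op.add, [9, 1, 14 * n + 3], [4], [2]⟩ ∨
      I = ⟨Op.add, [9, 2], [4], [2]⟩ := by
  unfold prologue at hI
  rcases List.mem_append.1 hI with h | h
  · left
    obtain ⟨r, hr, h1⟩ := List.mem_flatMap.1 h
    obtain ⟨t, ht, rfl⟩ := List.mem_map.1 h1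
    exact ⟨r, List.mem_range.1 hr, t, ht, rfl⟩
  · right
    simpa using h

theorem mem_prologue_wr {m n r : ℕ} (hr : r < 14 * (m * (n + 1))) {t : Term}
    (ht : t ∈ terms (n + 1) r) : wr r t ∈ prologue m n :=
  List.mem_append_left _ (List.mem_flatMap.2 ⟨r, List.mem_range.2 hr, List.mem_map.2 ⟨t, ht, rfl⟩⟩)

theorem mem_prologue_last {m n : ℕ} {I : Instr}
    (h : I = ⟨Op.add, [9, 1, 14 * n + 2], [4], [2]⟩ ∨ I = ⟨Op.add, [9, 1, 14 * n + 3], [4], [2]⟩ ∨
      I = ⟨Op.add, [9, 2], [4], [2]⟩) : I ∈ prologue m n :=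
  List.mem_append_right _ (by simpa using h)

theorem look_row_of_mem {K : Type} [AddCommGroup K] (σ : Reg → K) (N r : ℕ) {t : Term}
    (ht : t ∈ terms N r) : look (row σ N r) t.1 = tval σ t.2 :=
  look_of_mem (row_nodup σ N r) (t := (t.1, tval σ t.2)) (List.mem_map.2 ⟨t, ht, rfl⟩)

theorem exists_of_look_row_ne {K : Type} [AddCommGroup K] {σ : Reg → K} {N r c : ℕ}
    (h : look (row σ N r) c ≠ 0) : ∃ t ∈ terms N r, t.1 = c := by
  obtain ⟨t, ht, h1⟩ := exists_of_look_ne h
  obtain ⟨t', ht', rfl⟩ := List.mem_map.1 ht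
  exact ⟨t', ht', h1⟩

theorem big {m n : ℕ} (hm : 1 ≤ m) : 14 * n + 3 < 14 * (m * (n + 1)) := by
  have : 1 * (n + 1) ≤ m * (n + 1) := Nat.mul_le_mul_right _ hm
  omega

theorem exec_prologue {m n : ℕ} (hm : 1 ≤ m) (A : Matrix (Fin m) (Fin n) ℝ) (b : Fin m → ℝ) :
    exec (prologue m n) (start A b) =
      some (store A b, (prologue m n).map fun I => store A b I.dst) := by
  have h4 : start A b [4] = 0 := rfl
  have h2 : start A b [2] = 1 := rfl
  have hbig := big (n := n) hm
  have hb2 : start (mat A b) (rhs m n) [1, 14 * n + 2] = 1 := by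
    have : 14 * n + 2 < 14 * (m * (n + 1)) := by omega
    simp [start, this, rhs]
  have hb3 : start (mat A b) (rhs m n) [1, 14 * n + 3] = 1 := by
    simp [start, hbig, rhs]
  apply exec_writes
  · intro I hI
    rcases mem_prologue hI with ⟨r, -, t, -, rfl⟩ | rfl | rfl | rfl
    · unfold wr
      simp only
      split_ifs <;> simp
    · simp
    · simp
    · simp
  · intro I hI
    rcases mem_prologue hI with ⟨r, hr, t, ht, rfl⟩ | rfl | rfl | rfl
    · have hc : t.1 < 7 * (m * (n + 1)) := terms_lt hr t ht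
      have h5 : store A b (wr r t).dst = tval (start A b) t.2 := by
        change store A b (9 :: [0, r, t.1]) = _
        rw [store_cons]
        have : start (mat A b) (rhs m n) [0, r, t.1] = mat A b ⟨r, hr⟩ ⟨t.1, hc⟩ := by
          simp [start, hr, hc]
        rw [this]
        unfold mat
        rw [st_eq_start]
        exact look_row_of_mem _ _ _ ht
      rw [h5]
      unfold wr tval
      simp only [h4]
      split_ifs with hs
      · simp [Op.eval]
      · simp [Op.eval]
    · change (Op.add).eval (start A b [4]) (start A b [2]) = store A b (9 :: [1, 14 * n + 2])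
      rw [store_cons, hb2, h4, h2]
      simp [Op.eval]
    · change (Op.add).eval (start A b [4]) (start A b [2]) = store A b (9 :: [1, 14 * n + 3])
      rw [store_cons, hb3, h4, h2]
      simp [Op.eval]
    · change (Op.add).eval (start A b [4]) (start A b [2]) = store A b (9 :: [2])
      rw [store_cons, h4, h2]
      simp [Op.eval, start]
  · have hdst : ∀ I ∈ prologue m n, I.dst.head? = some 9 := by
      intro I hI
      rcases mem_prologue hI with ⟨r, hr, t, ht, rfl⟩ | rfl | rfl | rfl <;> simp [wr]
    have hsrc : ∀ I ∈ prologue m n, I.fst.head? ≠ some 9 ∧ I.snd.head? ≠ some 9 := by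
      intro I hI
      rcases mem_prologue hI with ⟨r, hr, t, ht, rfl⟩ | rfl | rfl | rfl
      · refine ⟨by simp [wr], ?_⟩
        change t.2.2.head? ≠ some 9
        obtain ⟨i, j, h | h | h⟩ := mem_terms_reg ht <;> simp [h]
      · simp
      · simp
      · simp
    intro I hI J hJ
    exact ⟨fun h => (hsrc J hJ).1 (h ▸ hdst I hI), fun h => (hsrc J hJ).2 (h ▸ hdst I hI)⟩
  · intro r hr
    unfold store
    split_ifs with h9
    · obtain ⟨r', rfl⟩ : ∃ r', r = 9 :: r' := by
        cases r with
        | nil => simp at h9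
        | cons a r' => simp at h9; exact ⟨r', by rw [h9]⟩
      have h0 : start A b (9 :: r') = 0 := by
        unfold start
        split <;> simp_all
      rw [h0, List.tail_cons]
      unfold start
      split
      · rename_i i j
        split_ifs with h
        · by_contra hne
          obtain ⟨t, ht, hc⟩ := exists_of_look_row_ne hne
          refine hr _ (mem_prologue_wr h.1 ht) ?_
          simp [wr, hc]
        · rfl
      · rename_i i
        split_ifs with h
        · unfold rhs
          split_ifs with h1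
          · exfalso
            rcases h1 with h1 | h1
            · simp only at h1
              subst h1
              exact hr _ (mem_prologue_last (Or.inl rfl)) rfl
            · simp only at h1
              subst h1
              exact hr _ (mem_prologue_last (Or.inr (Or.inl rfl))) rfl
          · rfl
        · rfl
      · exfalso
        exact hr _ (mem_prologue_last (Or.inr (Or.inr rfl))) rfl
      · rfl
    · rfl

theorem length_prologue_le (m n : ℕ) : (prologue m n).length ≤ 42 * (m * (n + 1)) + 3 := by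
  have h1 : ∀ r, (terms (n + 1) r).length ≤ 3 := by
    intro r
    have h2 : ∀ i j κ, (base (n + 1) i j κ).length ≤ 3 := by
      intro i j κ
      unfold base
      split_ifs <;> simp
    unfold terms cterms
    split_ifs
    · rw [List.length_map]
      exact h2 _ _ _
    · exact h2 _ _ _
  have h2 : ∀ K, ((List.range K).flatMap fun r => (terms (n + 1) r).map (wr r)).length ≤ 3 * K := by
    intro K
    induction K with
    | zero => simp
    | succ K ih =>
      rw [List.range_succ, List.flatMap_append, List.length_append]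
      have := h1 K
      simp only [List.flatMap_cons, List.flatMap_nil, List.append_nil, List.length_map]
      omega
  unfold prologue
  rw [List.length_append]
  have := h2 (14 * (m * (n + 1)))
  simp only [List.length_cons, List.length_nil]
  omega

/-! ### Rational instances -/

theorem st_cast {m n : ℕ} (A : Matrix (Fin m) (Fin n) ℚ) (b : Fin m → ℚ) (r : Reg) :
    ((st A b r : ℚ) : ℝ) = st (fun i j => ((A i j : ℚ) : ℝ)) (fun i => ((b i : ℚ) : ℝ)) r := by
  unfold st
  split
  · split_ifs <;> simp
  · split_ifs <;> simp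
  · simp
  · simp

theorem look_cast (L : List (ℕ × ℚ)) (c : ℕ) :
    ((look L c : ℚ) : ℝ) = look (L.map fun t => (t.1, (t.2 : ℝ))) c := by
  induction L with
  | nil => simp [look]
  | cons t L ih =>
    rw [List.map_cons, look_cons, look_cons, ← ih]
    push_cast
    congr 1
    split_ifs <;> simp

theorem mat_cast {m n : ℕ} (A : Matrix (Fin m) (Fin n) ℚ) (b : Fin m → ℚ)
    (r : Fin (14 * (m * (n + 1)))) (c : Fin (7 * (m * (n + 1)))) :
    ((mat A b r c : ℚ) : ℝ) =
      mat (fun i j => ((A i j : ℚ) : ℝ)) (fun i => ((b i : ℚ) : ℝ)) r c := by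
  unfold mat
  rw [look_cast]
  congr 1
  unfold row
  rw [List.map_map]
  apply List.map_congr_left
  rintro ⟨c, s, reg⟩ -
  simp only [Function.comp_apply, Prod.mk.injEq, true_and]
  unfold tval
  simp only
  split_ifs
  · rw [Rat.cast_neg, st_cast]
  · rw [st_cast]

theorem rhs_cast {m n : ℕ} (r : Fin (14 * (m * (n + 1)))) :
    ((rhs (K := ℚ) m n r : ℚ) : ℝ) = rhs m n r := by
  unfold rhs
  split_ifs <;> simp

theorem bitLength_neg (q : ℚ) : bitLength (-q) = bitLength q := by
  simp [bitLength]

theorem bitLength_pos (q : ℚ) : 1 ≤ bitLength q := by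
  unfold bitLength; omega

theorem bitLength_zero : bitLength 0 = 2 := by
  simp [bitLength]

theorem bitLength_one : bitLength 1 = 3 := by
  simp [bitLength]

theorem entry_le {m n : ℕ} (A : Matrix (Fin m) (Fin n) ℚ) (b : Fin m → ℚ) (i : Fin m)
    (j : Fin n) : bitLength (A i j) ≤ inputLength A b := by
  unfold inputLength
  have h1 : bitLength (A i j) ≤ ∑ j, bitLength (A i j) :=
    Finset.single_le_sum (f := fun j => bitLength (A i j)) (fun _ _ => Nat.zero_le _)
      (Finset.mem_univ j)
  have h2 : ∑ j, bitLength (A i j) ≤ ∑ i, ∑ j, bitLength (A i j) :=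
    Finset.single_le_sum (f := fun i => ∑ j, bitLength (A i j)) (fun _ _ => Nat.zero_le _)
      (Finset.mem_univ i)
  omega

theorem rhs_entry_le {m n : ℕ} (A : Matrix (Fin m) (Fin n) ℚ) (b : Fin m → ℚ) (i : Fin m) :
    bitLength (b i) ≤ inputLength A b := by
  unfold inputLength
  have h1 : bitLength (b i) ≤ ∑ i, bitLength (b i) :=
    Finset.single_le_sum (f := fun i => bitLength (b i)) (fun _ _ => Nat.zero_le _)
      (Finset.mem_univ i)
  omega

theorem size_le {m n : ℕ} (A : Matrix (Fin m) (Fin n) ℚ) (b : Fin m → ℚ) :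
    m * (n + 1) ≤ inputLength A b := by
  unfold inputLength
  have h1 : ∑ _i : Fin m, ∑ _j : Fin n, 1 ≤ ∑ i, ∑ j, bitLength (A i j) :=
    Finset.sum_le_sum fun i _ => Finset.sum_le_sum fun j _ => bitLength_pos _
  have h2 : ∑ _i : Fin m, 1 ≤ ∑ i, bitLength (b i) :=
    Finset.sum_le_sum fun i _ => bitLength_pos _
  simp at h1 h2
  rw [mul_add, mul_one]
  omega

theorem st_le {m n : ℕ} (A : Matrix (Fin m) (Fin n) ℚ) (b : Fin m → ℚ) (r : Reg) :
    bitLength (st A b r) ≤ inputLength A b + 3 := by
  unfold st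
  split
  · split_ifs
    · have := entry_le A b ⟨_, (by tauto)⟩ ⟨_, (by tauto)⟩
      omega
    · rw [bitLength_zero]; omega
  · split_ifs with h
    · have := rhs_entry_le A b ⟨_, h⟩
      omega
    · rw [bitLength_zero]; omega
  · rw [bitLength_one]; omega
  · rw [bitLength_zero]; omega

theorem mat_le {m n : ℕ} (A : Matrix (Fin m) (Fin n) ℚ) (b : Fin m → ℚ)
    (r : Fin (14 * (m * (n + 1)))) (c : Fin (7 * (m * (n + 1)))) :
    bitLength (mat A b r c) ≤ inputLength A b + 3 := by
  by_cases h : mat A b r c = 0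
  · rw [h, bitLength_zero]; omega
  · obtain ⟨t, ht, hc⟩ := exists_of_look_row_ne h
    have h1 : mat A b r c = tval (st A b) t.2 := by
      unfold mat
      rw [← hc]
      exact look_row_of_mem _ _ _ ht
    rw [h1]
    unfold tval
    split_ifs
    · rw [bitLength_neg]
      exact st_le A b _
    · exact st_le A b _

theorem rhs_le {m n : ℕ} (r : Fin (14 * (m * (n + 1)))) : bitLength (rhs m n r) ≤ 3 := by
  unfold rhs
  split_ifs
  · rw [bitLength_one]
  · rw [bitLength_zero]; omega

theorem inputLength_le {m n : ℕ} (A : Matrix (Fin m) (Fin n) ℚ) (b : Fin m → ℚ) :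
    inputLength (mat A b) (rhs m n) ≤
      (98 * inputLength A b ^ 2 + 14 * inputLength A b) * (inputLength A b + 3) := by
  set L := inputLength A b with hL
  have hs := size_le A b
  have h1 : ∑ i, ∑ j, bitLength (mat A b i j) ≤
      ∑ _i : Fin (14 * (m * (n + 1))), ∑ _j : Fin (7 * (m * (n + 1))), (L + 3) :=
    Finset.sum_le_sum fun i _ => Finset.sum_le_sum fun j _ => mat_le A b i j
  have h2 : ∑ i, bitLength (rhs m n i) ≤ ∑ _i : Fin (14 * (m * (n + 1))), (L + 3) :=
    Finset.sum_le_sum fun i _ => (rhs_le i).trans (by omega)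
  simp only [Finset.sum_const, Finset.card_univ, Fintype.card_fin, smul_eq_mul] at h1 h2
  have h3 : 14 * (m * (n + 1)) * (7 * (m * (n + 1)) * (L + 3)) ≤ 14 * L * (7 * L * (L + 3)) := by
    gcongr
  have h4 : 14 * (m * (n + 1)) * (L + 3) ≤ 14 * L * (L + 3) := by
    gcongr
  have h5 : (98 * L ^ 2 + 14 * L) * (L + 3) = 14 * L * (7 * L * (L + 3)) + 14 * L * (L + 3) := by
    ring
  unfold inputLength
  rw [h5]
  omega

end Run7.h715.PL
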