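import Pool.Agent.Run7.h715.PL.Mach
import Pool.Agent.H622R3.SM.T_COMP

set_option autoImplicit false

/-!
# Planar networks: the control of the algorithm is computed in polynomial time
-/

namespace Run7.h715.PL

open Pool.Agent.NPC Pool.Agent.NPC.ER Pool.Agent.H558R2 Pool.Agent.H622R3.SM

section

variable {α : Type} [TEnc α]

theorem poly_col {N i j l : α → ℕ} (hN : Poly N) (hi : Poly i) (hj : Poly j) (hl : Poly l) :
    Poly (fun a => col (N a) (i a) (j a) (l a)) :=
  Poly.add (Poly.mul (Pool.Agent.NPC.Poly.const 7) (Poly.add (Poly.mul hi hN) hj)) hl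

theorem poly_term {c : α → ℕ} {r : α → Reg} (s : Bool) (hc : Poly c) (hr : Poly r) :
    Poly (fun a => ((c a, (s, r a)) : Term)) :=
  Poly.pair hc (Poly.pair (Pool.Agent.NPC.Poly.const s) hr)

theorem poly_base {N i j κ : α → ℕ} (hN : Poly N) (hi : Poly i) (hj : Poly j) (hκ : Poly κ) :
    Poly (fun a => base (N a) (i a) (j a) (κ a)) := by
  have hk : ∀ k : ℕ, Poly (fun a => decide (κ a = k)) := fun k =>
    Poly.decide_eq hκ (Pool.Agent.NPC.Poly.const k)
  have hl : Poly (fun a => decide (j a + 1 = N a)) :=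
    Poly.decide_eq (Poly.add hj (Pool.Agent.NPC.Poly.const 1)) hN
  have hi0 : Poly (fun a => decide (i a = 0)) := Poly.decide_eq hi (Pool.Agent.NPC.Poly.const 0)
  have hj0 : Poly (fun a => decide (j a = 0)) := Poly.decide_eq hj (Pool.Agent.NPC.Poly.const 0)
  have hi1 : Poly (fun a => i a - 1) := Poly.sub hi (Pool.Agent.NPC.Poly.const 1)
  have hj1 : Poly (fun a => j a - 1) := Poly.sub hj (Pool.Agent.NPC.Poly.const 1)
  have e : ∀ (s : Bool) (l : ℕ),
      Poly (fun a => ((col (N a) (i a) (j a) l, (s, [2])) : Term)) := fun s l =>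
    poly_term s (poly_col hN hi hj (Pool.Agent.NPC.Poly.const l)) (Pool.Agent.NPC.Poly.const [2])
  have e' : ∀ (s : Bool) (l : ℕ),
      Poly (fun a => ((col (N a) (i a - 1) (j a) l, (s, [2])) : Term)) := fun s l =>
    poly_term s (poly_col hN hi1 hj (Pool.Agent.NPC.Poly.const l)) (Pool.Agent.NPC.Poly.const [2])
  have e'' : ∀ (s : Bool) (l : ℕ),
      Poly (fun a => ((col (N a) (i a) (j a - 1) l, (s, [2])) : Term)) := fun s l =>
    poly_term s (poly_col hN hi hj1 (Pool.Agent.NPC.Poly.const l)) (Pool.Agent.NPC.Poly.const [2])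
  have e1 : Poly (fun a => ((col (N a) (i a) (j a) 3, (false, [1, i a])) : Term)) :=
    poly_term _ (poly_col hN hi hj (Pool.Agent.NPC.Poly.const 3))
      (Poly.cons (Pool.Agent.NPC.Poly.const 1) (Poly.cons hi (Pool.Agent.NPC.Poly.const [])))
  have e0 : Poly (fun a => ((col (N a) (i a) (j a) 3, (true, [0, i a, j a])) : Term)) :=
    poly_term _ (poly_col hN hi hj (Pool.Agent.NPC.Poly.const 3))
      (Poly.cons (Pool.Agent.NPC.Poly.const 0) (Poly.cons hi (Poly.cons hj (Pool.Agent.NPC.Poly.const []))))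
  have nil : Poly (fun _ : α => ([] : List Term)) := Pool.Agent.NPC.Poly.const _
  unfold base
  refine Poly.ite (hk 0) (Poly.cons (e _ _) (Poly.cons (e _ _) (Poly.cons (e _ _) nil))) ?_
  refine Poly.ite (hk 1) (Poly.ite hi0 (Poly.ite hl (Poly.cons (e _ _) nil) nil)
    (Poly.cons (e' _ _) (Poly.cons (e _ _) (Poly.cons (e' _ _) nil)))) ?_
  refine Poly.ite (hk 2) (Poly.ite hl (Poly.cons (e _ _) (Poly.cons (e _ _) nil))
    (Poly.cons (e _ _) (Poly.cons (e _ _) (Poly.cons (e _ _) nil)))) ?_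
  refine Poly.ite (hk 3) (Poly.cons (e _ _) (Poly.cons (e _ _) nil)) ?_
  refine Poly.ite (hk 4) (Poly.ite hl (Poly.cons (e _ _) (Poly.cons e1 nil))
    (Poly.cons (e _ _) (Poly.cons e0 nil))) ?_
  refine Poly.ite (hk 5) (Poly.cons (e _ _) (Poly.cons (e _ _) (Poly.cons (e _ _) nil))) ?_
  exact Poly.ite hj0 (Poly.cons (e _ _) nil) (Poly.cons (e _ _) (Poly.cons (e'' _ _) nil))

theorem poly_cterms {N i j κ s : α → ℕ} (hN : Poly N) (hi : Poly i) (hj : Poly j) (hκ : Poly κ)
    (hs : Poly s) : Poly (fun a => cterms (N a) (i a) (j a) (κ a) (s a)) := by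
  have hI : Poly (fun a => decide (Ineq (N a) (i a) (j a) (κ a))) := by
    have h1 : Poly (fun a => decide ((κ a = 1 ∧ i a = 0) ∨ (κ a = 2 ∧ j a + 1 = N a))) :=
      Poly.decide_or (Poly.decide_and (Poly.decide_eq hκ (Pool.Agent.NPC.Poly.const 1))
        (Poly.decide_eq hi (Pool.Agent.NPC.Poly.const 0))) (Poly.decide_and (Poly.decide_eq hκ (Pool.Agent.NPC.Poly.const 2))
        (Poly.decide_eq (Poly.add hj (Pool.Agent.NPC.Poly.const 1)) hN))
    exact h1.congr fun a => by simp only [Ineq]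
  have hb := poly_base hN hi hj hκ
  unfold cterms
  refine Poly.ite (Poly.decide_and (Poly.decide_eq hs (Pool.Agent.NPC.Poly.const 1)) (Poly.decide_not hI)) ?_ hb
  refine Pool.Agent.NPC.Poly.map (F := fun _ (t : Term) => (t.1, (!t.2.1, t.2.2))) hb ?_
  have ht : Poly (fun p : α × Term => p.2) := Poly.snd Poly.id
  exact Poly.pair (Poly.fst ht) (Poly.pair (Poly.not (Poly.fst (Poly.snd ht)))
    (Poly.snd (Poly.snd ht)))

theorem poly_terms {N r : α → ℕ} (hN : Poly N) (hr : Poly r) :
    Poly (fun a => terms (N a) (r a)) := by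
  unfold terms
  have h1 : Poly (fun a => r a / 14) := Poly.div hr (Pool.Agent.NPC.Poly.const 14)
  exact poly_cterms hN (Poly.div h1 hN) (Poly.mod h1 hN)
    (Poly.div (Poly.mod hr (Pool.Agent.NPC.Poly.const 14)) (Pool.Agent.NPC.Poly.const 2)) (Poly.mod hr (Pool.Agent.NPC.Poly.const 2))

theorem poly_instr {f : α → Instr} (h : Poly (fun a => (f a).code)) : Poly f := h

theorem poly_code {f : α → Instr} (h : Poly f) : Poly (fun a => (f a).code) := h

theorem poly_test {f : α → Test} (h : Poly (fun a => (f a).code)) : Poly f := h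

theorem poly_tcode {f : α → Test} (h : Poly f) : Poly (fun a => (f a).code) := h

theorem poly_wr {r : α → ℕ} {t : α → Term} (hr : Poly r) (ht : Poly t) :
    Poly (fun a => wr (r a) (t a)) := by
  apply poly_instr
  have h1 : Poly (fun a => ((if (t a).2.1 = true then 1 else 0 : ℕ),
      (([9, 0, r a, (t a).1] : Reg), (([4] : Reg), (t a).2.2)))) :=
    Poly.pair (Poly.ite (Poly.decide_bool (Poly.fst (Poly.snd ht))) (Pool.Agent.NPC.Poly.const 1) (Pool.Agent.NPC.Poly.const 0))
      (Poly.pair (Poly.cons (Pool.Agent.NPC.Poly.const 9) (Poly.cons (Pool.Agent.NPC.Poly.const 0) (Poly.cons hr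
        (Poly.cons (Poly.fst ht) (Pool.Agent.NPC.Poly.const []))))) (Poly.pair (Pool.Agent.NPC.Poly.const [4])
        (Poly.snd (Poly.snd ht))))
  refine h1.congr fun a => ?_
  unfold wr Instr.code
  simp only
  split_ifs <;> rfl

theorem poly_renI {I : α → Instr} (hI : Poly I) : Poly (fun a => renI (I a)) := by
  apply poly_instr
  have h := poly_code hI
  have h1 : Poly (fun a => ((I a).code.1, ((9 :: (I a).code.2.1 : Reg),
      ((9 :: (I a).code.2.2.1 : Reg), (9 :: (I a).code.2.2.2 : Reg))))) :=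
    Poly.pair (Poly.fst h) (Poly.pair (Poly.cons (Pool.Agent.NPC.Poly.const 9) (Poly.fst (Poly.snd h)))
      (Poly.pair (Poly.cons (Pool.Agent.NPC.Poly.const 9) (Poly.fst (Poly.snd (Poly.snd h))))
        (Poly.cons (Pool.Agent.NPC.Poly.const 9) (Poly.snd (Poly.snd (Poly.snd h))))))
  exact h1.congr fun a => rfl

theorem poly_renT {t : α → Test} (ht : Poly t) : Poly (fun a => renT (t a)) := by
  apply poly_test
  have h1 := Poly.sumCases (g := fun _ r => (Sum.inl (9 :: r) : Reg ⊕ (List Bool ⊕ Bool)))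
      (h := fun _ x => Sum.inr x) (poly_tcode ht)
      (Poly.inl (Poly.cons (Pool.Agent.NPC.Poly.const 9) (Poly.snd Poly.id)))
      (Poly.inr (Poly.snd Poly.id))
  refine h1.congr fun a => ?_
  cases t a <;> rfl

end

theorem polyControl_lift {α : Alg} (hα : PolyControl α) : PolyControl (lift α) := by
  have h1 : Poly (fun p : HistIn => α p.1.1.length p.1.2.length p.2) := t_COMP2 _ _ _ hα
  have um : UPoly (fun p : HistIn => p.1.1.length) := UPoly.length (Poly.fst (Poly.fst Poly.id))
  have un : UPoly (fun p : HistIn => p.1.2.length) := UPoly.length (Poly.snd (Poly.fst Poly.id))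
  have us : UPoly (fun p : HistIn => p.1.1.length * (p.1.2.length + 1)) :=
    UPoly.mul um (UPoly.add un (UPoly.const 1))
  have uM : UPoly (fun p : HistIn => 14 * (p.1.1.length * (p.1.2.length + 1))) :=
    UPoly.mul (UPoly.const 14) us
  have uN : UPoly (fun p : HistIn => 7 * (p.1.1.length * (p.1.2.length + 1))) :=
    UPoly.mul (UPoly.const 7) us
  have h2 : Poly (fun p : HistIn =>
      (((List.replicate (14 * (p.1.1.length * (p.1.2.length + 1))) (),
        List.replicate (7 * (p.1.1.length * (p.1.2.length + 1))) ()), p.2) : HistIn)) :=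
    Poly.pair (Poly.pair uM uN) (Poly.snd Poly.id)
  have h3 : Poly (fun p : HistIn => α (14 * (p.1.1.length * (p.1.2.length + 1)))
      (7 * (p.1.1.length * (p.1.2.length + 1))) p.2) :=
    (Poly.comp h1 h2).congr fun p => by simp
  have hpro : Poly (fun p : HistIn => prologue p.1.1.length p.1.2.length) := by
    unfold prologue
    have hn : Poly (fun p : HistIn => p.1.2.length) := un.toPoly
    have h14 : Poly (fun p : HistIn => 14 * p.1.2.length) := Poly.mul (Pool.Agent.NPC.Poly.const 14) hn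
    have hI : ∀ k : ℕ, Poly (fun p : HistIn =>
        (⟨Op.add, [9, 1, 14 * p.1.2.length + k], [4], [2]⟩ : Instr)) := by
      intro k
      apply poly_instr
      have h : Poly (fun p : HistIn => ((0 : ℕ), (([9, 1, 14 * p.1.2.length + k] : Reg),
          (([4] : Reg), ([2] : Reg))))) :=
        Poly.pair (Pool.Agent.NPC.Poly.const 0) (Poly.pair (Poly.cons (Pool.Agent.NPC.Poly.const 9) (Poly.cons (Pool.Agent.NPC.Poly.const 1)
          (Poly.cons (Poly.add h14 (Pool.Agent.NPC.Poly.const k)) (Pool.Agent.NPC.Poly.const [])))) (Pool.Agent.NPC.Poly.const ([4], [2])))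
      exact h.congr fun p => rfl
    refine Poly.append ?_ (Poly.cons (hI 2) (Poly.cons (hI 3) (Pool.Agent.NPC.Poly.const _)))
    refine Poly.flatMap (F := fun (p : HistIn) r => (terms (p.1.2.length + 1) r).map (wr r))
      uM.range ?_
    have hr : Poly (fun p : HistIn × ℕ => p.2) := Poly.snd Poly.id
    have hN : Poly (fun p : HistIn × ℕ => p.1.1.2.length + 1) :=
      Poly.add (hn.comp (Poly.fst Poly.id)) (Pool.Agent.NPC.Poly.const 1)
    exact Pool.Agent.NPC.Poly.map (F := fun (p : HistIn × ℕ) t => wr p.2 t) (poly_terms hN hr)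
      (poly_wr (hr.comp (Poly.fst Poly.id)) (Poly.snd Poly.id))
  apply t_COMP
  unfold lift shift
  refine Poly.pair (Poly.append (Poly.ite (Poly.decide_eq (Poly.snd Poly.id) (Pool.Agent.NPC.Poly.const []))
    hpro (Pool.Agent.NPC.Poly.const [])) ?_) (poly_renT (Poly.snd h3))
  exact Pool.Agent.NPC.Poly.map (F := fun (_ : HistIn) I => renI I) (Poly.fst h3)
    (poly_renI (Poly.snd Poly.id))

end Run7.h715.PL
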