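import Pool.Agent.H622R3.SM.Model

set_option autoImplicit false

/-!
# Planar networks: the definitions

The class of systems, and the system of a given instance `(A, b)`.
-/

namespace Run7.h715.PL

open Pool.Agent.H558R2 Pool.Agent.H622R3.SM

/-- The linear form is, up to the sign, `x j - x k - x l` for three different variables, or
`x j - a * x k` for two different variables and a real number `a`, or it is zero. -/
def Simple {n : ℕ} (f : Fin n → ℝ) : Prop :=
  (∃ j k l : Fin n, j ≠ k ∧ j ≠ l ∧ k ≠ l ∧
    (f = Pi.single j 1 - Pi.single k 1 - Pi.single l 1 ∨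
      f = -(Pi.single j 1 - Pi.single k 1 - Pi.single l 1))) ∨
  (∃ (j k : Fin n) (a : ℝ), j ≠ k ∧
    (f = Pi.single j 1 - Pi.single k a ∨ f = -(Pi.single j 1 - Pi.single k a))) ∨ f = 0

/-- The system `A x ≥ b` is a network drawn on the square grid, with points of degree at most
three. -/
def GridNetwork {m n : ℕ} (A : Matrix (Fin m) (Fin n) ℝ) (b : Fin m → ℝ) : Prop :=
  ∃ (P : Fin m → ℤ × ℤ) (Q : Fin n → ℤ × ℤ),
    Function.Injective Q ∧
    (∀ i, Odd ((P i).1 + (P i).2)) ∧ (∀ j, Even ((Q j).1 + (Q j).2)) ∧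
    (∀ i j, A i j ≠ 0 → |(P i).1 - (Q j).1| + |(P i).2 - (Q j).2| = 1) ∧
    (∀ j, {p | ∃ i, A i j ≠ 0 ∧ P i = p}.ncard ≤ 3) ∧
    (∀ i i', P i = P i' → (A i = A i' ∧ b i = b i') ∨ (A i = -A i' ∧ b i = 0 ∧ b i' = 0)) ∧
    (∀ i, Simple (A i)) ∧
    (∀ i i' j, ¬ (A i j = 0 ∨ A i j = 1 ∨ A i j = -1) →
      ¬ (A i' j = 0 ∨ A i' j = 1 ∨ A i' j = -1) → P i = P i') ∧
    (∀ i, b i ≠ 0 → b i = 1 ∧ ∃ j, A i = Pi.single j 1) ∧
    (∀ i i', b i ≠ 0 → b i' ≠ 0 → P i = P i')

/-! ### The system of an instance -/

/-- A term of a linear form: the column, the sign (`true` means minus), and the register which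
holds the coefficient up to the sign. -/
abbrev Term : Type := ℕ × (Bool × Reg)

/-- The column of the variable of kind `l` in the cell `(i, j)`. -/
def col (N i j l : ℕ) : ℕ := 7 * (i * N + j) + l

/-- The constraint of kind `κ` in the cell `(i, j)`. -/
def base (N i j κ : ℕ) : List Term :=
  if κ = 0 then
    [(col N i j 0, (false, [2])), (col N i j 1, (true, [2])), (col N i j 2, (true, [2]))]
  else if κ = 1 then
    (if i = 0 then (if j + 1 = N then [(col N i j 3, (false, [2]))] else [])
    else [(col N (i - 1) j 0, (false, [2])), (col N i j 3, (true, [2])),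
      (col N (i - 1) j 1, (true, [2]))])
  else if κ = 2 then
    (if j + 1 = N then [(col N i j 0, (false, [2])), (col N i j 2, (true, [2]))]
    else [(col N i j 0, (false, [2])), (col N i j 6, (true, [2])), (col N i j 2, (true, [2]))])
  else if κ = 3 then
    [(col N i j 3, (false, [2])), (col N i j 2, (true, [2]))]
  else if κ = 4 then
    (if j + 1 = N then [(col N i j 4, (false, [2])), (col N i j 3, (false, [1, i]))]
    else [(col N i j 4, (false, [2])), (col N i j 3, (true, [0, i, j]))])
  else if κ = 5 then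
    [(col N i j 1, (false, [2])), (col N i j 4, (true, [2])), (col N i j 5, (true, [2]))]
  else
    (if j = 0 then [(col N i j 5, (false, [2]))]
    else [(col N i j 5, (false, [2])), (col N i (j - 1) 6, (true, [2]))])

/-- The constraints which are inequalities. -/
def Ineq (N i j κ : ℕ) : Prop := (κ = 1 ∧ i = 0) ∨ (κ = 2 ∧ j + 1 = N)

instance (N i j κ : ℕ) : Decidable (Ineq N i j κ) := by unfold Ineq; infer_instance

/-- The terms of the constraint, or of the opposite one. -/
def cterms (N i j κ s : ℕ) : List Term :=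
  if s = 1 ∧ ¬ Ineq N i j κ then (base N i j κ).map fun t => (t.1, (!t.2.1, t.2.2))
  else base N i j κ

/-- The terms of the row `r`. -/
def terms (N r : ℕ) : List Term :=
  cterms N (r / 14 / N) (r / 14 % N) (r % 14 / 2) (r % 2)

variable {K : Type}

/-- The initial store of an instance over `K`. -/
def st [Zero K] [One K] {m n : ℕ} (A : Fin m → Fin n → K) (b : Fin m → K) : Reg → K
  | [0, i, j] => if h : i < m ∧ j < n then A ⟨i, h.1⟩ ⟨j, h.2⟩ else 0
  | [1, i] => if h : i < m then b ⟨i, h⟩ else 0
  | [2] => 1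
  | _ => 0

/-- The coefficient of a term. -/
def tval [Neg K] (σ : Reg → K) (t : Bool × Reg) : K := if t.1 then -σ t.2 else σ t.2

/-- The coefficient of the variable `c` in a linear form given by a list of terms. -/
def look [AddCommGroup K] (L : List (ℕ × K)) (c : ℕ) : K :=
  (L.map fun t => if t.1 = c then t.2 else 0).sum

/-- The coefficients of the row `r`. -/
def row [AddCommGroup K] (σ : Reg → K) (N r : ℕ) : List (ℕ × K) :=
  (terms N r).map fun t => (t.1, tval σ t.2)

/-- The matrix of the system. -/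
def mat [AddCommGroup K] [One K] {m n : ℕ} (A : Matrix (Fin m) (Fin n) K) (b : Fin m → K) :
    Matrix (Fin (14 * (m * (n + 1)))) (Fin (7 * (m * (n + 1)))) K :=
  fun r c => look (row (st A b) (n + 1) r) c

/-- The right-hand side of the system. -/
def rhs [Zero K] [One K] (m n : ℕ) : Fin (14 * (m * (n + 1))) → K :=
  fun r => if (r : ℕ) = 14 * n + 2 ∨ (r : ℕ) = 14 * n + 3 then 1 else 0

/-! ### The drawing -/

/-- The point of the variable of kind `l`, in the cell with the origin `0`. -/
def qoff (l : ℕ) : ℤ × ℤ :=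
  if l = 0 then (0, 0) else if l = 1 then (-1, 1) else if l = 2 then (-1, -1)
  else if l = 3 then (-2, -2) else if l = 4 then (-2, 0) else if l = 5 then (-3, 1) else (1, -1)

/-- The point of the constraint of kind `κ`, in the cell with the origin `0`. -/
def poff (κ : ℕ) : ℤ × ℤ :=
  if κ = 0 then (-1, 0) else if κ = 1 then (-2, -3) else if κ = 2 then (0, -1)
  else if κ = 3 then (-1, -2) else if κ = 4 then (-2, -1) else if κ = 5 then (-2, 1) else (-3, 0)

/-- The point of a variable. -/
def qpt (i j l : ℕ) : ℤ × ℤ := (4 * j + 2 * i + (qoff l).1, 4 * i + (qoff l).2)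

/-- The point of a constraint. -/
def ppt (i j κ : ℕ) : ℤ × ℤ := (4 * j + 2 * i + (poff κ).1, 4 * i + (poff κ).2)

end Run7.h715.PL
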