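import Pool.Agent.Run7.h715.PL.Sys

set_option autoImplicit false

/-!
# Planar networks: the matrix of the system, and its solvability
-/

namespace Run7.h715.PL

open Pool.Agent.H558R2 Pool.Agent.H622R3.SM

theorem st_eq_start {m n : ℕ} (A : Fin m → Fin n → ℝ) (b : Fin m → ℝ) : st A b = start A b := by
  funext r
  unfold st start
  split
  · rfl
  · rfl
  · rfl
  · rename_i h1 h2 h3
    split
    · exact (h1 _ _ rfl).elim
    · exact (h2 _ rfl).elim
    · exact (h3 rfl).elim
    · rfl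

/-! ### Rows and columns -/

theorem decode {m N r : ℕ} (hr : r < 14 * (m * N)) :
    r / 14 / N < m ∧ r / 14 % N < N ∧ r % 14 / 2 < 7 ∧ r % 2 < 2 := by
  have hN : 0 < N := by
    rcases Nat.eq_zero_or_pos N with h | h
    · rw [h] at hr; omega
    · exact h
  refine ⟨?_, Nat.mod_lt _ hN, by omega, by omega⟩
  rw [Nat.div_lt_iff_lt_mul hN]
  omega

theorem row_lt {m N i j κ s : ℕ} (hi : i < m) (hj : j < N) (hκ : κ < 7) (hs : s < 2) :
    14 * (i * N + j) + 2 * κ + s < 14 * (m * N) := by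
  have h1 : i * N + j < m * N :=
    calc i * N + j < i * N + N := by omega
      _ = (i + 1) * N := by ring
      _ ≤ m * N := Nat.mul_le_mul_right _ hi
  omega

theorem cell_lt {m N i j : ℕ} (hi : i < m) (hj : j < N) : i * N + j < m * N :=
  calc i * N + j < i * N + N := by omega
    _ = (i + 1) * N := by ring
    _ ≤ m * N := Nat.mul_le_mul_right _ hi

theorem col_lt {m N i j l : ℕ} (hi : i < m) (hj : j < N) (hl : l < 7) :
    col N i j l < 7 * (m * N) := by
  have h1 := cell_lt hi hj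
  unfold col
  omega

theorem terms_row {N i j κ s : ℕ} (hj : j < N) (hκ : κ < 7) (hs : s < 2) :
    terms N (14 * (i * N + j) + 2 * κ + s) = cterms N i j κ s := by
  have h1 : (14 * (i * N + j) + 2 * κ + s) / 14 = i * N + j := by omega
  have h2 : (14 * (i * N + j) + 2 * κ + s) % 14 / 2 = κ := by omega
  have h3 : (14 * (i * N + j) + 2 * κ + s) % 2 = s := by omega
  have h4 : (i * N + j) / N = i := by
    rw [add_comm, Nat.add_mul_div_right _ _ (by omega), Nat.div_eq_of_lt hj, zero_add]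
  have h5 : (i * N + j) % N = j := by
    rw [add_comm, Nat.add_mul_mod_self_right, Nat.mod_eq_of_lt hj]
  unfold terms
  rw [h1, h2, h3, h4, h5]

theorem row_decode {N r : ℕ} :
    r = 14 * (r / 14 / N * N + r / 14 % N) + 2 * (r % 14 / 2) + r % 2 := by
  rw [Nat.div_add_mod' (r / 14) N]
  omega

/-! ### The columns which occur -/

theorem base_lt {m N i j κ : ℕ} (hi : i < m) (hj : j < N) :
    ∀ t ∈ base N i j κ, t.1 < 7 * (m * N) := by
  intro t ht
  have e := fun l hl => col_lt (l := l) hi hj hl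
  have e' := fun l hl => col_lt (l := l) (i := i - 1) (m := m) (by omega) hj hl
  have e'' := fun l hl => col_lt (l := l) (j := j - 1) (N := N) hi (by omega) hl
  unfold base at ht
  split_ifs at ht <;> simp only [List.mem_cons, List.not_mem_nil, or_false] at ht
  all_goals
    first
    | (rcases ht with rfl | rfl | rfl)
    | (rcases ht with rfl | rfl)
    | subst ht
  all_goals
    first
    | exact e _ (by norm_num)
    | exact e' _ (by norm_num)
    | exact e'' _ (by norm_num)

theorem mem_cterms {N i j κ s : ℕ} {t : Term} (ht : t ∈ cterms N i j κ s) :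
    ∃ t' ∈ base N i j κ, t'.1 = t.1 ∧ t'.2.2 = t.2.2 := by
  unfold cterms at ht
  split_ifs at ht
  · obtain ⟨t', h1, h2⟩ := List.mem_map.1 ht
    exact ⟨t', h1, by rw [← h2], by rw [← h2]⟩
  · exact ⟨t, ht, rfl, rfl⟩

theorem terms_lt {m N r : ℕ} (hr : r < 14 * (m * N)) : ∀ t ∈ terms N r, t.1 < 7 * (m * N) := by
  intro t ht
  obtain ⟨h1, h2, -, -⟩ := decode hr
  obtain ⟨t', h3, h4, -⟩ := mem_cterms ht
  rw [← h4]
  exact base_lt h1 h2 t' h3

/-! ### Solvability -/

theorem row_lin (σ : Reg → ℝ) (N r : ℕ) (z : ℕ → ℝ) :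
    ((row σ N r).map fun t => t.2 * z t.1).sum = lin σ (terms N r) z := by
  unfold row lin
  rw [List.map_map]
  rfl

theorem mulVec_eq {m n : ℕ} (A : Matrix (Fin m) (Fin n) ℝ) (b : Fin m → ℝ) (z : ℕ → ℝ)
    (r : Fin (14 * (m * (n + 1)))) :
    (mat A b).mulVec (fun c => z c) r = lin (start A b) (terms (n + 1) r) z := by
  unfold Matrix.mulVec dotProduct mat
  rw [st_eq_start, sum_look, row_lin]
  intro t ht
  unfold row at ht
  obtain ⟨t', h1, rfl⟩ := List.mem_map.1 ht
  exact terms_lt r.2 t' h1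

theorem rhs_eq {m n i j κ s : ℕ} (hi : i < m) (hj : j < n + 1) (hκ : κ < 7) (hs : s < 2) :
    rhs (K := ℝ) m n ⟨14 * (i * (n + 1) + j) + 2 * κ + s, row_lt hi hj hκ hs⟩ =
      rc (n + 1) i j κ := by
  unfold rhs rc
  have h : (14 * (i * (n + 1) + j) + 2 * κ + s = 14 * n + 2 ∨
      14 * (i * (n + 1) + j) + 2 * κ + s = 14 * n + 3) ↔ (κ = 1 ∧ i = 0 ∧ j + 1 = n + 1) := by
    constructor
    · intro h
      have h1 : i * (n + 1) + j = n := by omega
      have h2 : κ = 1 := by omega
      have h3 : i = 0 := by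
        by_contra h0
        have : 1 * (n + 1) ≤ i * (n + 1) := Nat.mul_le_mul_right _ (by omega)
        omega
      subst h3
      exact ⟨h2, rfl, by omega⟩
    · rintro ⟨rfl, rfl, h3⟩
      omega
  simp only [h]

theorem le_mulVec_iff {m n : ℕ} (A : Matrix (Fin m) (Fin n) ℝ) (b : Fin m → ℝ) (z : ℕ → ℝ) :
    rhs m n ≤ (mat A b).mulVec (fun c => z c) ↔ AllC (start A b) z m (n + 1) := by
  constructor
  · intro h i j κ hi hj hκ
    rw [← both_iff]
    intro s hs
    have h1 := h ⟨14 * (i * (n + 1) + j) + 2 * κ + s, row_lt hi hj hκ hs⟩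
    rw [mulVec_eq, rhs_eq hi hj hκ hs] at h1
    simp only [terms_row hj hκ hs] at h1
    exact h1
  · intro h r
    obtain ⟨h1, h2, h3, h4⟩ := decode r.2
    have h5 := (both_iff _ _ _ _ _ _).2 (h _ _ _ h1 h2 h3) _ h4
    have h6 : r = ⟨14 * (r.1 / 14 / (n + 1) * (n + 1) + r.1 / 14 % (n + 1)) +
        2 * (r.1 % 14 / 2) + r.1 % 2, row_lt h1 h2 h3 h4⟩ := Fin.ext row_decode
    rw [mulVec_eq]
    have h7 := rhs_eq h1 h2 h3 h4
    rw [← h6] at h7
    rw [h7]
    exact h5

theorem cf_sum {m n : ℕ} (A : Matrix (Fin m) (Fin n) ℝ) (b : Fin m → ℝ) (X : ℕ → ℝ) (i : ℕ)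
    (hi : i < m) :
    ∑ j ∈ Finset.range (n + 1), cf (start A b) (n + 1) i j * X j =
      A.mulVec (fun j => X j) ⟨i, hi⟩ - b ⟨i, hi⟩ * X n := by
  rw [Finset.sum_range_succ]
  have h1 : cf (start A b) (n + 1) i n = -b ⟨i, hi⟩ := by
    simp [cf, start, hi]
  rw [h1, Finset.sum_range]
  unfold Matrix.mulVec dotProduct
  have h2 : ∀ j : Fin n, cf (start A b) (n + 1) i j * X j = A ⟨i, hi⟩ j * X j := by
    intro j
    simp [cf, start, hi]
    intro h
    exact absurd h (by have := j.2; omega)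
  rw [Finset.sum_congr rfl fun j _ => h2 j]
  ring

theorem start_one {m n : ℕ} (A : Matrix (Fin m) (Fin n) ℝ) (b : Fin m → ℝ) :
    start A b [2] = 1 := rfl

theorem feas_iff {m n : ℕ} (hm : 1 ≤ m) (A : Matrix (Fin m) (Fin n) ℝ) (b : Fin m → ℝ) :
    (∃ z : Fin (7 * (m * (n + 1))) → ℝ, rhs m n ≤ (mat A b).mulVec z) ↔
      ∃ x : Fin n → ℝ, b ≤ A.mulVec x := by
  constructor
  · rintro ⟨z, hz⟩
    set z' : ℕ → ℝ := fun c => if h : c < 7 * (m * (n + 1)) then z ⟨c, h⟩ else 0 with hz'
    have h1 : z = fun c : Fin (7 * (m * (n + 1))) => z' c := by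
      funext c
      simp [hz']
    rw [h1, le_mulVec_iff] at hz
    obtain ⟨X, hX, hB⟩ := allC_forward _ (start_one A b) m n hm z' hz
    have hpos : 0 < X n := by linarith
    refine ⟨fun j => X j / X n, fun i => ?_⟩
    have h2 := hB i i.2
    rw [cf_sum A b X i i.2] at h2
    have h3 : A.mulVec (fun j => X j / X n) i = A.mulVec (fun j => X j) i / X n := by
      unfold Matrix.mulVec dotProduct
      rw [Finset.sum_div]
      exact Finset.sum_congr rfl fun j _ => by ring
    rw [h3, le_div_iff₀ hpos]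
    simpa using h2
  · rintro ⟨x, hx⟩
    set X : ℕ → ℝ := fun j => if h : j < n then x ⟨j, h⟩ else 1 with hX
    refine ⟨fun c => sol (start A b) (n + 1) X c, ?_⟩
    rw [le_mulVec_iff]
    apply allC_backward _ (start_one A b) m n X
    · simp [hX]
    · intro i hi
      rw [cf_sum A b X i hi]
      have h1 : (fun j : Fin n => X j) = x := by
        funext j
        simp [hX]
      have h2 : X n = 1 := by simp [hX]
      rw [h1, h2]
      have := hx ⟨i, hi⟩
      linarith

end Run7.h715.PL
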