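import Pool.Agent.Run7.h715.PL.Feas

set_option autoImplicit false

/-!
# Planar networks: the drawing of the system
-/

namespace Run7.h715.PL

open Pool.Agent.H558R2 Pool.Agent.H622R3.SM

/-! ### Points -/

theorem qpt_inj {i j l i' j' l' : ℕ} (hl : l < 7) (hl' : l' < 7) (h : qpt i j l = qpt i' j' l') :
    i = i' ∧ j = j' ∧ l = l' := by
  have h1 := congrArg Prod.fst h
  have h2 := congrArg Prod.snd h
  unfold qpt at h1 h2
  simp only at h1 h2
  interval_cases l <;> interval_cases l' <;> simp [qoff] at h1 h2 ⊢ <;> omega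

theorem ppt_inj {i j l i' j' l' : ℕ} (hl : l < 7) (hl' : l' < 7) (h : ppt i j l = ppt i' j' l') :
    i = i' ∧ j = j' ∧ l = l' := by
  have h1 := congrArg Prod.fst h
  have h2 := congrArg Prod.snd h
  unfold ppt at h1 h2
  simp only at h1 h2
  interval_cases l <;> interval_cases l' <;> simp [poff] at h1 h2 ⊢ <;> omega

theorem qpt_even {i j l : ℕ} (hl : l < 7) : Even ((qpt i j l).1 + (qpt i j l).2) := by
  unfold qpt
  rw [Int.even_iff]
  interval_cases l <;> simp [qoff] <;> omega

theorem ppt_odd {i j l : ℕ} (hl : l < 7) : Odd ((ppt i j l).1 + (ppt i j l).2) := by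
  unfold ppt
  rw [Int.odd_iff]
  interval_cases l <;> simp [poff] <;> omega

/-- The positions of the constraints around a variable of kind `l`. -/
def dirs (l : ℕ) : List (ℤ × ℤ) :=
  if l = 0 then [(-1, 0), (0, -1), (0, 1)] else if l = 1 then [(0, -1), (1, 0), (-1, 0)]
  else if l = 2 then [(0, 1), (1, 0), (0, -1)] else if l = 3 then [(1, 0), (0, 1), (0, -1)]
  else if l = 4 then [(0, -1), (0, 1)] else if l = 5 then [(1, 0), (0, -1)]
  else [(-1, 0), (0, 1)]

theorem dirs_unit {l : ℕ} {d : ℤ × ℤ} (hd : d ∈ dirs l) : |d.1| + |d.2| = 1 := by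
  unfold dirs at hd
  split_ifs at hd <;> simp only [List.mem_cons, List.not_mem_nil, or_false] at hd
  all_goals
    first
    | (rcases hd with rfl | rfl | rfl)
    | (rcases hd with rfl | rfl)
  all_goals simp

theorem dirs_length (l : ℕ) : (dirs l).length ≤ 3 := by
  unfold dirs
  split_ifs <;> simp

theorem base_dirs {N i j κ : ℕ} (hj : j < N) (hκ : κ < 7) {t : Term} (ht : t ∈ base N i j κ) :
    ∃ i' j' l, t.1 = col N i' j' l ∧ j' < N ∧ l < 7 ∧ ∃ d ∈ dirs l,
      ppt i j κ = qpt i' j' l + d := by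
  interval_cases κ
  · simp only [base, if_true, List.mem_cons, List.not_mem_nil, or_false] at ht
    rcases ht with rfl | rfl | rfl
    · exact ⟨i, j, 0, rfl, hj, by norm_num, (-1, 0), by simp [dirs], by simp [ppt, qpt, poff, qoff]⟩
    · refine ⟨i, j, 1, rfl, hj, by norm_num, (0, -1), by simp [dirs], ?_⟩
      simp [ppt, qpt, poff, qoff]
    · refine ⟨i, j, 2, rfl, hj, by norm_num, (0, 1), by simp [dirs], ?_⟩
      simp [ppt, qpt, poff, qoff]
  · by_cases hi : i = 0
    · subst hi
      by_cases hjn : j + 1 = N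
      · simp [base, hjn] at ht
        subst ht
        refine ⟨0, j, 3, rfl, hj, by norm_num, (0, -1), by simp [dirs], ?_⟩
        simp [ppt, qpt, poff, qoff]
      · simp [base, hjn] at ht
    · obtain ⟨i, rfl⟩ : ∃ i', i = i' + 1 := ⟨i - 1, by omega⟩
      simp [base] at ht
      rcases ht with rfl | rfl | rfl
      · refine ⟨i, j, 0, rfl, hj, by norm_num, (0, 1), by simp [dirs], ?_⟩
        simp [ppt, qpt, poff, qoff]
        constructor <;> ring
      · refine ⟨i + 1, j, 3, rfl, hj, by norm_num, (0, -1), by simp [dirs], ?_⟩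
        simp [ppt, qpt, poff, qoff]
        ring
      · refine ⟨i, j, 1, rfl, hj, by norm_num, (1, 0), by simp [dirs], ?_⟩
        simp [ppt, qpt, poff, qoff]
        constructor <;> ring
  · by_cases hjn : j + 1 = N
    · simp [base, hjn] at ht
      rcases ht with rfl | rfl
      · refine ⟨i, j, 0, rfl, hj, by norm_num, (0, -1), by simp [dirs], ?_⟩
        simp [ppt, qpt, poff, qoff]
      · refine ⟨i, j, 2, rfl, hj, by norm_num, (1, 0), by simp [dirs], ?_⟩
        simp [ppt, qpt, poff, qoff]
    · simp [base, hjn] at ht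
      rcases ht with rfl | rfl | rfl
      · refine ⟨i, j, 0, rfl, hj, by norm_num, (0, -1), by simp [dirs], ?_⟩
        simp [ppt, qpt, poff, qoff]
      · refine ⟨i, j, 6, rfl, hj, by norm_num, (-1, 0), by simp [dirs], ?_⟩
        simp [ppt, qpt, poff, qoff]
      · refine ⟨i, j, 2, rfl, hj, by norm_num, (1, 0), by simp [dirs], ?_⟩
        simp [ppt, qpt, poff, qoff]
  · simp [base] at ht
    rcases ht with rfl | rfl
    · refine ⟨i, j, 3, rfl, hj, by norm_num, (1, 0), by simp [dirs], ?_⟩
      simp [ppt, qpt, poff, qoff]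
      ring
    · refine ⟨i, j, 2, rfl, hj, by norm_num, (0, -1), by simp [dirs], ?_⟩
      simp [ppt, qpt, poff, qoff]
      ring
  · have h3 : t.1 = col N i j 4 ∨ t.1 = col N i j 3 := by
      by_cases hjn : j + 1 = N
      · simp [base, hjn] at ht
        rcases ht with rfl | rfl
        · exact Or.inl rfl
        · exact Or.inr rfl
      · simp [base, hjn] at ht
        rcases ht with rfl | rfl
        · exact Or.inl rfl
        · exact Or.inr rfl
    rcases h3 with h3 | h3
    · refine ⟨i, j, 4, h3, hj, by norm_num, (0, -1), by simp [dirs], ?_⟩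
      simp [ppt, qpt, poff, qoff]
    · refine ⟨i, j, 3, h3, hj, by norm_num, (0, 1), by simp [dirs], ?_⟩
      simp [ppt, qpt, poff, qoff]
      ring
  · simp [base] at ht
    rcases ht with rfl | rfl | rfl
    · refine ⟨i, j, 1, rfl, hj, by norm_num, (-1, 0), by simp [dirs], ?_⟩
      simp [ppt, qpt, poff, qoff]
      ring
    · refine ⟨i, j, 4, rfl, hj, by norm_num, (0, 1), by simp [dirs], ?_⟩
      simp [ppt, qpt, poff, qoff]
    · refine ⟨i, j, 5, rfl, hj, by norm_num, (1, 0), by simp [dirs], ?_⟩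
      simp [ppt, qpt, poff, qoff]
      ring
  · by_cases hj0 : j = 0
    · subst hj0
      simp [base] at ht
      subst ht
      refine ⟨i, 0, 5, rfl, hj, by norm_num, (0, -1), by simp [dirs], ?_⟩
      simp [ppt, qpt, poff, qoff]
    · obtain ⟨j, rfl⟩ : ∃ j', j = j' + 1 := ⟨j - 1, by omega⟩
      simp [base] at ht
      rcases ht with rfl | rfl
      · refine ⟨i, j + 1, 5, rfl, hj, by norm_num, (0, -1), by simp [dirs], ?_⟩
        simp [ppt, qpt, poff, qoff]
      · refine ⟨i, j, 6, rfl, by omega, by norm_num, (0, 1), by simp [dirs], ?_⟩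
        simp [ppt, qpt, poff, qoff]
        ring

end Run7.h715.PL
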