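import Pool.Agent.Run7.h715.PL.Rows

set_option autoImplicit false

/-!
# Planar networks: the algorithm
-/

namespace Run7.h715.PL

open Pool.Agent.H558R2 Pool.Agent.H622R3.SM

/-- The instruction which writes a coefficient of the row `r`. -/
def wr (r : ℕ) (t : Term) : Instr :=
  ⟨if t.2.1 = true then Op.sub else Op.add, [9, 0, r, t.1], [4], t.2.2⟩

/-- The program which writes the new system. -/
def prologue (m n : ℕ) : List Instr :=
  ((List.range (14 * (m * (n + 1)))).flatMap fun r => (terms (n + 1) r).map (wr r)) ++
    [⟨Op.add, [9, 1, 14 * n + 2], [4], [2]⟩, ⟨Op.add, [9, 1, 14 * n + 3], [4], [2]⟩,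
      ⟨Op.add, [9, 2], [4], [2]⟩]

/-- The same instruction on the registers `9 :: r`. -/
def renI (I : Instr) : Instr := ⟨I.op, 9 :: I.dst, 9 :: I.fst, 9 :: I.snd⟩

/-- The same test on the registers `9 :: r`. -/
def renT : Test → Test
  | Test.sign r => Test.sign (9 :: r)
  | Test.ask w => Test.ask w
  | Test.answer a => Test.answer a

/-- The program `pro`, followed by the algorithm `α` on the registers `9 :: r`. -/
def shift (pro : List Instr) (α : List Outcome → List Instr × Test) (h : List Outcome) :
    List Instr × Test :=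
  ((if h = [] then pro else []) ++ (α h).1.map renI, renT (α h).2)

/-- Write the new system and run the algorithm `α` on it. -/
def lift (α : Alg) : Alg := fun m n =>
  shift (prologue m n) (α (14 * (m * (n + 1))) (7 * (m * (n + 1))))

/-! ### Execution -/

theorem exec_writes (P : List Instr) (V : Reg → ℝ) : ∀ (ρ : Reg → ℝ),
    (∀ I ∈ P, I.op ≠ Op.div) → (∀ I ∈ P, I.op.eval (ρ I.fst) (ρ I.snd) = V I.dst) →
    (∀ I ∈ P, ∀ J ∈ P, I.dst ≠ J.fst ∧ I.dst ≠ J.snd) →
    (∀ r, (∀ I ∈ P, I.dst ≠ r) → V r = ρ r) →
    exec P ρ = some (V, P.map fun I => V I.dst) := by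
  induction P with
  | nil =>
    intro ρ _ _ _ h
    have : ρ = V := funext fun r => (h r fun I hI => absurd hI List.not_mem_nil).symm
    rw [this]
    rfl
  | cons I P ih =>
    intro ρ h1 h2 h3 h4
    have hI := h2 I List.mem_cons_self
    have hdiv := h1 I List.mem_cons_self
    rw [exec, if_neg fun h => hdiv h.1, hI]
    rw [ih (Function.update ρ I.dst (V I.dst))]
    · rfl
    · exact fun J hJ => h1 J (List.mem_cons_of_mem _ hJ)
    · intro J hJ
      have h5 := h3 I List.mem_cons_self J (List.mem_cons_of_mem _ hJ)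
      rw [Function.update_of_ne h5.1.symm, Function.update_of_ne h5.2.symm]
      exact h2 J (List.mem_cons_of_mem _ hJ)
    · exact fun J hJ L hL => h3 J (List.mem_cons_of_mem _ hJ) L (List.mem_cons_of_mem _ hL)
    · intro r hr
      by_cases h : r = I.dst
      · subst h
        rw [Function.update_self]
      · rw [Function.update_of_ne h]
        apply h4
        intro J hJ
        rcases List.mem_cons.1 hJ with rfl | hJ
        · exact fun h' => h h'.symm
        · exact hr J hJ

theorem exec_append (P Q : List Instr) : ∀ (ρ ρ' ρ'' : Reg → ℝ) (l l' : List ℝ),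
    exec P ρ = some (ρ', l) → exec Q ρ' = some (ρ'', l') →
    exec (P ++ Q) ρ = some (ρ'', l ++ l') := by
  induction P with
  | nil =>
    intro ρ ρ' ρ'' l l' h1 h2
    simp only [exec, Option.some.injEq, Prod.mk.injEq] at h1
    obtain ⟨rfl, rfl⟩ := h1
    exact h2
  | cons I P ih =>
    intro ρ ρ' ρ'' l l' h1 h2
    rw [List.cons_append, exec]
    rw [exec] at h1
    split_ifs at h1 with h3
    rw [if_neg h3]
    rw [Option.map_eq_some_iff] at h1
    obtain ⟨⟨a, b⟩, h4, h5⟩ := h1
    simp only [Prod.mk.injEq] at h5
    obtain ⟨rfl, rfl⟩ := h5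
    rw [ih _ _ _ _ _ h4 h2]
    rfl

theorem exec_ren (P : List Instr) : ∀ (σ ρ τ : Reg → ℝ) (l : List ℝ),
    (∀ r, ρ (9 :: r) = σ r) → exec P σ = some (τ, l) →
    ∃ ρ', exec (P.map renI) ρ = some (ρ', l) ∧ ∀ r, ρ' (9 :: r) = τ r := by
  induction P with
  | nil =>
    intro σ ρ τ l h1 h2
    simp only [exec, Option.some.injEq, Prod.mk.injEq] at h2
    obtain ⟨rfl, rfl⟩ := h2
    exact ⟨ρ, rfl, h1⟩
  | cons I P ih =>
    intro σ ρ τ l h1 h2
    rw [exec] at h2
    split_ifs at h2 with h3
    rw [Option.map_eq_some_iff] at h2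
    obtain ⟨⟨a, b⟩, h4, h5⟩ := h2
    simp only [Prod.mk.injEq] at h5
    obtain ⟨rfl, rfl⟩ := h5
    obtain ⟨ρ', h6, h7⟩ := ih _ (Function.update ρ (9 :: I.dst)
      (I.op.eval (ρ (9 :: I.fst)) (ρ (9 :: I.snd)))) a b (by
        intro r
        by_cases hr : r = I.dst
        · subst hr
          rw [Function.update_self, Function.update_self, h1, h1]
        · rw [Function.update_of_ne hr, Function.update_of_ne, h1]
          intro h
          exact hr (List.cons.inj h).2) h4
    refine ⟨ρ', ?_, h7⟩
    rw [List.map_cons, exec]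
    have h8 : ¬ ((renI I).op = Op.div ∧ ρ (renI I).snd = 0) := by
      rintro ⟨h8, h9⟩
      exact h3 ⟨h8, by rw [← h1]; exact h9⟩
    rw [if_neg h8]
    simp only [renI]
    rw [h6, h1, h1]
    rfl

/-! ### Runs -/

theorem shift_snd (pro : List Instr) (α : List Outcome → List Instr × Test) (h : List Outcome) :
    (shift pro α h).2 = renT (α h).2 := rfl

theorem shift_fst (pro : List Instr) (α : List Outcome → List Instr × Test) {h : List Outcome}
    (hh : h ≠ []) : (shift pro α h).1 = (α h).1.map renI := by
  simp [shift, hh]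

theorem shift_fst_nil (pro : List Instr) (α : List Outcome → List Instr × Test) :
    (shift pro α []).1 = pro ++ (α []).1.map renI := by
  simp [shift]

open Classical in
theorem run_ren (O : Set (List Bool)) {α : List Outcome → List Instr × Test} {pro : List Instr} : ∀ (k : ℕ)
    (h : List Outcome) (σ ρ : Reg → ℝ) (x : Bool × List ℝ × ℕ), h ≠ [] →
    (∀ r, ρ (9 :: r) = σ r) → run O α k h σ = some x →
    run O (shift pro α) k h ρ = some x := by
  intro k
  induction k with
  | zero => intro h σ ρ x _ _ hx; simp [run] at hx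
  | succ k ih =>
    intro h σ ρ x hh hρ hx
    rw [run] at hx ⊢
    rw [shift_fst _ _ hh, shift_snd]
    cases h1 : exec (α h).1 σ with
    | none => rw [h1] at hx; simp at hx
    | some r =>
      obtain ⟨τ, l⟩ := r
      rw [h1] at hx
      obtain ⟨ρ', h2, h3⟩ := exec_ren _ _ ρ _ _ hρ h1
      rw [h2]
      simp only [Option.bind_some] at hx ⊢
      cases h4 : (α h).2 with
      | answer a => rw [h4] at hx; exact hx
      | sign y =>
        rw [h4] at hx
        simp only [renT] at hx ⊢
        rw [h3]
        cases h5 : run O α k (h ++ [signOut (τ y)]) τ with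
        | none => rw [h5] at hx; simp at hx
        | some z =>
          rw [h5] at hx
          rw [ih _ _ ρ' _ (by simp) h3 h5]
          exact hx
      | ask w =>
        rw [h4] at hx
        simp only [renT] at hx ⊢
        cases h5 : run O α k (h ++ [some (decide (w ∈ O))]) τ with
        | none => rw [h5] at hx; simp at hx
        | some z =>
          rw [h5] at hx
          rw [ih _ _ ρ' _ (by simp) h3 h5]
          exact hx

open Classical in
theorem run_pro (O : Set (List Bool)) {α : List Outcome → List Instr × Test} {pro : List Instr} (k : ℕ)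
    (σ ρ ρ₁ : Reg → ℝ) (l : List ℝ) (ans : Bool) (nums : List ℝ) (steps : ℕ)
    (hpro : exec pro ρ = some (ρ₁, l)) (hρ : ∀ r, ρ₁ (9 :: r) = σ r)
    (hx : run O α k [] σ = some (ans, nums, steps)) :
    run O (shift pro α) k [] ρ = some (ans, l ++ nums, l.length + steps) := by
  cases k with
  | zero => simp [run] at hx
  | succ k =>
    rw [run] at hx ⊢
    rw [shift_fst_nil, shift_snd]
    cases h1 : exec (α []).1 σ with
    | none => rw [h1] at hx; simp at hx
    | some r =>
      obtain ⟨τ, l'⟩ := r
      rw [h1] at hx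
      obtain ⟨ρ', h2, h3⟩ := exec_ren _ _ ρ₁ _ _ hρ h1
      rw [exec_append _ _ _ _ _ _ _ hpro h2]
      simp only [Option.bind_some] at hx ⊢
      cases h4 : (α []).2 with
      | answer a =>
        rw [h4] at hx
        simp only [Option.some.injEq, Prod.mk.injEq] at hx
        obtain ⟨rfl, rfl, rfl⟩ := hx
        simp [renT]
      | sign y =>
        rw [h4] at hx
        simp only [renT] at hx ⊢
        rw [h3]
        cases h5 : run O α k ([] ++ [signOut (τ y)]) τ with
        | none => rw [h5] at hx; simp at hx
        | some z =>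
          rw [h5] at hx
          rw [run_ren O (pro := pro) _ _ _ ρ' _ (by simp) h3 h5]
          simp only [Option.map_some, Option.some.injEq, Prod.mk.injEq] at hx ⊢
          obtain ⟨rfl, rfl, rfl⟩ := hx
          refine ⟨rfl, by simp, by simp; omega⟩
      | ask w =>
        rw [h4] at hx
        simp only [renT] at hx ⊢
        cases h5 : run O α k ([] ++ [some (decide (w ∈ O))]) τ with
        | none => rw [h5] at hx; simp at hx
        | some z =>
          rw [h5] at hx
          rw [run_ren O (pro := pro) _ _ _ ρ' _ (by simp) h3 h5]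
          simp only [Option.map_some, Option.some.injEq, Prod.mk.injEq] at hx ⊢
          obtain ⟨rfl, rfl, rfl⟩ := hx
          refine ⟨rfl, by simp, by simp; omega⟩

end Run7.h715.PL
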