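import Pool.Agent.Run7.h715.PL.Corr
import Pool.Agent.Run7.h715.PL.Ctrl

set_option autoImplicit false

/-!
# Planar networks: the main theorem
-/

namespace Run7.h715.PL

open Pool.Agent.NPC Pool.Agent.H558R2 Pool.Agent.H622R3.SM Polynomial

/-- The algorithm `α` decides linear feasibility for the instances in the class `C` in strongly
polynomial time. -/
def DecidesOn (C : ∀ m n : ℕ, Matrix (Fin m) (Fin n) ℝ → (Fin m → ℝ) → Prop) (α : Alg) : Prop :=
  ∃ p : Polynomial ℕ, ∀ m n : ℕ, 1 ≤ m → 1 ≤ n →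
    ∀ (A : Matrix (Fin m) (Fin n) ℝ) (b : Fin m → ℝ), C m n A b → ∃ ans nums steps,
      run ∅ (α m n) (p.eval (m + n)) [] (start A b) = some (ans, nums, steps) ∧
      (ans = true ↔ ∃ x : Fin n → ℝ, b ≤ A.mulVec x) ∧ steps ≤ p.eval (m + n) ∧
      ∀ (A' : Matrix (Fin m) (Fin n) ℚ) (b' : Fin m → ℚ), (∀ i j, ((A' i j : ℚ) : ℝ) = A i j) →
        (∀ i, ((b' i : ℚ) : ℝ) = b i) →
        ∀ v ∈ nums, ∃ q : ℚ, (q : ℝ) = v ∧ bitLength q ≤ p.eval (inputLength A' b')

open Classical in
theorem run_mono (O : Set (List Bool)) (β : List Outcome → List Instr × Test) :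
    ∀ (k : ℕ) (h : List Outcome) (ρ : Reg → ℝ) (x : Bool × List ℝ × ℕ),
      run O β k h ρ = some x → ∀ k', k ≤ k' → run O β k' h ρ = some x := by
  intro k
  induction k with
  | zero => intro h ρ x hx; simp [run] at hx
  | succ k ih =>
    intro h ρ x hx k' hk'
    obtain ⟨k', rfl⟩ : ∃ j, k' = j + 1 := ⟨k' - 1, by omega⟩
    rw [run] at hx ⊢
    cases h1 : exec (β h).1 ρ with
    | none => rw [h1] at hx; simp at hx
    | some r =>
      rw [h1] at hx
      simp only [Option.bind_some] at hx ⊢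
      cases h2 : (β h).2 with
      | answer a => rw [h2] at hx; exact hx
      | sign y =>
        rw [h2] at hx
        simp only at hx ⊢
        cases h3 : run O β k (h ++ [signOut (r.1 y)]) r.1 with
        | none => rw [h3] at hx; simp at hx
        | some z =>
          rw [h3] at hx
          rw [ih _ _ _ h3 k' (by omega)]
          exact hx
      | ask w =>
        rw [h2] at hx
        simp only at hx ⊢
        cases h3 : run O β k (h ++ [some (decide (w ∈ O))]) r.1 with
        | none => rw [h3] at hx; simp at hx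
        | some z =>
          rw [h3] at hx
          rw [ih _ _ _ h3 k' (by omega)]
          exact hx

/-- The numbers written by the first program, on a rational instance. -/
theorem prologue_nums {m n : ℕ} (hm : 1 ≤ m) (A : Matrix (Fin m) (Fin n) ℝ) (b : Fin m → ℝ)
    (A' : Matrix (Fin m) (Fin n) ℚ) (b' : Fin m → ℚ) (hA : ∀ i j, ((A' i j : ℚ) : ℝ) = A i j)
    (hb : ∀ i, ((b' i : ℚ) : ℝ) = b i) {v : ℝ}
    (hv : v ∈ (prologue m n).map fun I => store A b I.dst) :
    ∃ q : ℚ, (q : ℝ) = v ∧ bitLength q ≤ inputLength A' b' + 3 := by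
  obtain ⟨I, hI, rfl⟩ := List.mem_map.1 hv
  have h1 : (fun i j => ((A' i j : ℚ) : ℝ)) = A := by
    funext i j; exact hA i j
  have h2 : (fun i => ((b' i : ℚ) : ℝ)) = b := by
    funext i; exact hb i
  have hbig := big (n := n) hm
  rcases mem_prologue hI with ⟨r, hr, t, ht, rfl⟩ | rfl | rfl | rfl
  · have hc : t.1 < 7 * (m * (n + 1)) := terms_lt hr t ht
    refine ⟨mat A' b' ⟨r, hr⟩ ⟨t.1, hc⟩, ?_, mat_le A' b' _ _⟩
    rw [mat_cast, h1, h2]
    change _ = store A b (9 :: [0, r, t.1])
    rw [store_cons]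
    simp [start, hr, hc]
  · refine ⟨1, ?_, by rw [bitLength_one]; omega⟩
    change _ = store A b (9 :: [1, 14 * n + 2])
    rw [store_cons]
    have : 14 * n + 2 < 14 * (m * (n + 1)) := by omega
    simp [start, this, rhs]
  · refine ⟨1, ?_, by rw [bitLength_one]; omega⟩
    change _ = store A b (9 :: [1, 14 * n + 3])
    rw [store_cons]
    simp [start, hbig, rhs]
  · refine ⟨1, ?_, by rw [bitLength_one]; omega⟩
    change _ = store A b (9 :: [2])
    rw [store_cons]
    simp [start]

theorem lift_decides {α : Alg} (h : DecidesOn (fun _ _ A b => GridNetwork A b) α) :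
    DecidesOn (fun _ _ _ _ => True) (lift α) := by
  obtain ⟨p, hp⟩ := h
  refine ⟨p.comp (C 21 * X * (X + 1)) + p.comp ((C 98 * X ^ 2 + C 14 * X) * (X + 3)) +
    (C 42 * X * (X + 1) + C 3 + X), ?_⟩
  intro m n hm hn A b _
  set q : Polynomial ℕ := p.comp (C 21 * X * (X + 1)) +
    p.comp ((C 98 * X ^ 2 + C 14 * X) * (X + 3)) + (C 42 * X * (X + 1) + C 3 + X) with hq
  have hqe : ∀ x, q.eval x = p.eval (21 * x * (x + 1)) +
      p.eval ((98 * x ^ 2 + 14 * x) * (x + 3)) + (42 * x * (x + 1) + 3 + x) := by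
    intro x
    simp [hq]
  have hs1 : 1 ≤ m * (n + 1) := by
    have : 1 * 1 ≤ m * (n + 1) := Nat.mul_le_mul hm (by omega)
    omega
  have hs2 : m * (n + 1) ≤ (m + n) * (m + n + 1) := Nat.mul_le_mul (by omega) (by omega)
  obtain ⟨ans, nums, steps, h1, h2, h3, h4⟩ := hp (14 * (m * (n + 1))) (7 * (m * (n + 1)))
    (by omega) (by omega) (mat A b) (rhs m n) (gridNetwork hm A b)
  have hsize : 14 * (m * (n + 1)) + 7 * (m * (n + 1)) ≤ 21 * (m + n) * (m + n + 1) := by
    have : 21 * (m + n) * (m + n + 1) = 21 * ((m + n) * (m + n + 1)) := by ring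
    omega
  have h5 := run_pro ∅ (pro := prologue m n) _ _ _ _ _ _ _ _ (exec_prologue hm A b)
    (store_cons A b) h1
  refine ⟨ans, _, _, run_mono _ _ _ _ _ _ h5 _ ?_, ?_, ?_, ?_⟩
  · rw [hqe]
    have := eval_mono p hsize
    omega
  · rw [h2]
    exact feas_iff hm A b
  · rw [hqe, List.length_map]
    have h6 := eval_mono p hsize
    have h7 := length_prologue_le m n
    have h8 : 42 * (m + n) * (m + n + 1) = 42 * ((m + n) * (m + n + 1)) := by ring
    omega
  · intro A' b' hA hb v hv
    rcases List.mem_append.1 hv with hv | hv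
    · obtain ⟨x, hx1, hx2⟩ := prologue_nums hm A b A' b' hA hb hv
      refine ⟨x, hx1, hx2.trans ?_⟩
      rw [hqe]
      omega
    · have e1 : (fun i j => ((A' i j : ℚ) : ℝ)) = A := by
        funext i j; exact hA i j
      have e2 : (fun i => ((b' i : ℚ) : ℝ)) = b := by
        funext i; exact hb i
      obtain ⟨x, hx1, hx2⟩ := h4 (mat A' b') (rhs m n)
        (fun i j => by rw [mat_cast, e1, e2]) (fun i => rhs_cast i) v hv
      refine ⟨x, hx1, hx2.trans ?_⟩
      have h9 := eval_mono p (inputLength_le A' b')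
      rw [hqe]
      omega

theorem main : (∃ α : Alg, PolyControl α ∧ OracleFree α ∧ DecidesOn (fun _ _ _ _ => True) α) ↔
    ∃ α : Alg, PolyControl α ∧ OracleFree α ∧ DecidesOn (fun _ _ A b => GridNetwork A b) α := by
  constructor
  · rintro ⟨α, h1, h2, p, hp⟩
    exact ⟨α, h1, h2, p, fun m n hm hn A b _ => hp m n hm hn A b trivial⟩
  · rintro ⟨α, h1, h2, h3⟩
    refine ⟨lift α, polyControl_lift h1, ?_, lift_decides h3⟩
    intro m n h w hw
    unfold lift at hw
    rw [shift_snd] at hw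
    cases h4 : (α (14 * (m * (n + 1))) (7 * (m * (n + 1))) h).2 with
    | sign r => rw [h4] at hw; simp [renT] at hw
    | ask w' => exact h2 _ _ _ _ h4
    | answer a => rw [h4] at hw; simp [renT] at hw

end Run7.h715.PL
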