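import Pool.Agent.Run7.h715.PL.Grid

set_option autoImplicit false

/-!
# Planar networks: the system is a network
-/

namespace Run7.h715.PL

open Pool.Agent.H558R2 Pool.Agent.H622R3.SM

/-! ### The columns in a row are different -/

theorem col_inj {N i j l i' j' l' : ℕ} (hj : j < N) (hl : l < 7) (hj' : j' < N) (hl' : l' < 7)
    (h : col N i j l = col N i' j' l') : i = i' ∧ j = j' ∧ l = l' :=
  ⟨by rw [← col_div (i := i) hj hl, h, col_div hj' hl'],
    by rw [← col_mod (i := i) hj hl, h, col_mod hj' hl'],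
    by rw [← col_kind (N := N) (i := i) (j := j) hl, h, col_kind hl']⟩

theorem col_ne {N i j l i' j' l' : ℕ} (hl : l < 7) (hl' : l' < 7)
    (h : l ≠ l') : col N i j l ≠ col N i' j' l' := by
  intro hc
  apply h
  rw [← col_kind (N := N) (i := i) (j := j) hl, hc, col_kind hl']

theorem base_nodup (N i j κ : ℕ) : ((base N i j κ).map Prod.fst).Nodup := by
  have h : ∀ i j i' j' l l', l < 7 → l' < 7 → l ≠ l' → col N i j l ≠ col N i' j' l' :=
    fun i j i' j' l l' hl hl' hne => col_ne hl hl' hne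
  unfold base
  split_ifs <;> simp [h]

theorem cterms_fst (N i j κ s : ℕ) :
    (cterms N i j κ s).map Prod.fst = (base N i j κ).map Prod.fst := by
  unfold cterms
  split_ifs
  · rw [List.map_map]
    rfl
  · rfl

theorem terms_nodup (N r : ℕ) : ((terms N r).map Prod.fst).Nodup := by
  unfold terms
  rw [cterms_fst]
  exact base_nodup _ _ _ _

theorem row_nodup {K : Type} [AddCommGroup K] (σ : Reg → K) (N r : ℕ) :
    ((row σ N r).map Prod.fst).Nodup := by
  unfold row
  rw [List.map_map]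
  exact terms_nodup N r

/-! ### The linear forms -/

variable {M : ℕ}

/-- The linear form given by a list of terms. -/
noncomputable def form (M : ℕ) (σ : Reg → ℝ) (L : List Term) : Fin M → ℝ :=
  fun c => look (L.map fun t => (t.1, tval σ t.2)) c

theorem form_neg (σ : Reg → ℝ) (L : List Term) :
    form M σ (L.map fun t => (t.1, (!t.2.1, t.2.2))) = -form M σ L := by
  funext c
  have h : (L.map fun t => (t.1, (!t.2.1, t.2.2))).map (fun t => (t.1, tval σ t.2)) =
      (L.map fun t => (t.1, tval σ t.2)).map fun t => (t.1, -t.2) := by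
    rw [List.map_map, List.map_map]
    apply List.map_congr_left
    rintro ⟨c, b, r⟩ -
    cases b <;> simp [tval]
  unfold form
  rw [h, look_map_neg]
  rfl

theorem mat_row {m n : ℕ} (A : Matrix (Fin m) (Fin n) ℝ) (b : Fin m → ℝ)
    (r : Fin (14 * (m * (n + 1)))) :
    mat A b r = form (7 * (m * (n + 1))) (start A b) (terms (n + 1) r) := by
  funext c
  unfold mat form row
  rw [st_eq_start]

theorem simple_neg {f : Fin M → ℝ} (h : Simple f) : Simple (-f) := by
  rcases h with ⟨j, k, l, h1, h2, h3, h4⟩ | ⟨j, k, a, h1, h2⟩ | h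
  · refine Or.inl ⟨j, k, l, h1, h2, h3, ?_⟩
    rcases h4 with h4 | h4
    · exact Or.inr (by rw [h4])
    · exact Or.inl (by rw [h4, neg_neg])
  · refine Or.inr (Or.inl ⟨j, k, a, h1, ?_⟩)
    rcases h2 with h2 | h2
    · exact Or.inr (by rw [h2])
    · exact Or.inl (by rw [h2, neg_neg])
  · exact Or.inr (Or.inr (by rw [h, neg_zero]))

theorem form3 {σ : Reg → ℝ} (hσ : σ [2] = 1) {c c' c'' : ℕ} (h : c < M) (h' : c' < M)
    (h'' : c'' < M) :
    form M σ [(c, (false, [2])), (c', (true, [2])), (c'', (true, [2]))] =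
      Pi.single ⟨c, h⟩ 1 - Pi.single ⟨c', h'⟩ 1 - Pi.single ⟨c'', h''⟩ 1 := by
  funext x
  simp only [form, look, tval, List.map_cons, List.map_nil, List.sum_cons, List.sum_nil, hσ,
    Pi.sub_apply, Pi.single_apply, Fin.ext_iff, if_true, Bool.false_eq_true, if_false,
    eq_comm (a := (x : ℕ))]
  split_ifs <;> norm_num

theorem form2 {σ : Reg → ℝ} (hσ : σ [2] = 1) {c c' : ℕ} (t : Bool × Reg) (h : c < M)
    (h' : c' < M) :
    form M σ [(c, (false, [2])), (c', t)] =
      Pi.single ⟨c, h⟩ 1 - Pi.single ⟨c', h'⟩ (-tval σ t) := by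
  funext x
  have h1 : tval σ (false, [2]) = 1 := by simp [tval, hσ]
  simp only [form, look, List.map_cons, List.map_nil, List.sum_cons, List.sum_nil, h1,
    Pi.sub_apply, Pi.single_apply, Fin.ext_iff, eq_comm (a := (x : ℕ))]
  split_ifs <;> ring

theorem form1 {σ : Reg → ℝ} (hσ : σ [2] = 1) {c : ℕ} (h : c < M) :
    form M σ [(c, (false, [2]))] = Pi.single ⟨c, h⟩ 1 := by
  funext x
  simp only [form, look, tval, List.map_cons, List.map_nil, List.sum_cons, List.sum_nil, hσ,
    Pi.single_apply, Fin.ext_iff, Bool.false_eq_true, if_false, eq_comm (a := (x : ℕ))]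
  split_ifs <;> norm_num

theorem simple3 {σ : Reg → ℝ} (hσ : σ [2] = 1) {c c' c'' : ℕ} (h : c < M) (h' : c' < M)
    (h'' : c'' < M) (h1 : c ≠ c') (h2 : c ≠ c'') (h3 : c' ≠ c'') :
    Simple (form M σ [(c, (false, [2])), (c', (true, [2])), (c'', (true, [2]))]) :=
  Or.inl ⟨⟨c, h⟩, ⟨c', h'⟩, ⟨c'', h''⟩, by simpa using h1, by simpa using h2, by simpa using h3,
    Or.inl (form3 hσ h h' h'')⟩

theorem simple2 {σ : Reg → ℝ} (hσ : σ [2] = 1) {c c' : ℕ} {t : Bool × Reg} (h : c < M)
    (h' : c' < M) (h1 : c ≠ c') : Simple (form M σ [(c, (false, [2])), (c', t)]) :=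
  Or.inr (Or.inl ⟨⟨c, h⟩, ⟨c', h'⟩, -tval σ t, by simpa using h1,
    Or.inl (form2 hσ t h h')⟩)

theorem simple1 {σ : Reg → ℝ} (hσ : σ [2] = 1) {c c' : ℕ} (h : c < M)
    (h' : c' < M) (h1 : c ≠ c') : Simple (form M σ [(c, (false, [2]))]) := by
  refine Or.inr (Or.inl ⟨⟨c, h⟩, ⟨c', h'⟩, 0, by simpa using h1, Or.inl ?_⟩)
  rw [form1 hσ h]
  simp

theorem simple0 (σ : Reg → ℝ) : Simple (form M σ []) := Or.inr (Or.inr rfl)

theorem simple_base {m N i j κ : ℕ} {σ : Reg → ℝ} (hσ : σ [2] = 1) (hi : i < m) (hj : j < N)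
    (hκ : κ < 7) : Simple (form (7 * (m * N)) σ (base N i j κ)) := by
  have e := fun l hl => col_lt (l := l) hi hj hl
  have e' := fun l hl => col_lt (l := l) (i := i - 1) (m := m) (by omega) hj hl
  have e'' := fun l hl => col_lt (l := l) (j := j - 1) (N := N) hi (by omega) hl
  have hne : ∀ i j i' j' l l', l < 7 → l' < 7 → l ≠ l' → col N i j l ≠ col N i' j' l' :=
    fun i j i' j' l l' hl hl' hne => col_ne hl hl' hne
  unfold base
  split_ifs
  · exact simple3 hσ (e 0 (by norm_num)) (e 1 (by norm_num)) (e 2 (by norm_num))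
      (by simp [hne]) (by simp [hne]) (by simp [hne])
  · exact simple1 hσ (e 3 (by norm_num)) (e 0 (by norm_num)) (by simp [hne])
  · exact simple0 σ
  · exact simple3 hσ (e' 0 (by norm_num)) (e 3 (by norm_num)) (e' 1 (by norm_num))
      (by simp [hne]) (by simp [hne]) (by simp [hne])
  · exact simple2 hσ (e 0 (by norm_num)) (e 2 (by norm_num)) (by simp [hne])
  · exact simple3 hσ (e 0 (by norm_num)) (e 6 (by norm_num)) (e 2 (by norm_num))
      (by simp [hne]) (by simp [hne]) (by simp [hne])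
  · exact simple2 hσ (e 3 (by norm_num)) (e 2 (by norm_num)) (by simp [hne])
  · exact simple2 hσ (e 4 (by norm_num)) (e 3 (by norm_num)) (by simp [hne])
  · exact simple2 hσ (e 4 (by norm_num)) (e 3 (by norm_num)) (by simp [hne])
  · exact simple3 hσ (e 1 (by norm_num)) (e 4 (by norm_num)) (e 5 (by norm_num))
      (by simp [hne]) (by simp [hne]) (by simp [hne])
  · exact simple1 hσ (e 5 (by norm_num)) (e 0 (by norm_num)) (by simp [hne])
  · exact simple2 hσ (e 5 (by norm_num)) (e'' 6 (by norm_num)) (by simp [hne])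

theorem form_cterms (σ : Reg → ℝ) (N i j κ s : ℕ) :
    (¬ Ineq N i j κ ∧ form M σ (cterms N i j κ s) = -form M σ (base N i j κ)) ∨
      form M σ (cterms N i j κ s) = form M σ (base N i j κ) := by
  unfold cterms
  split_ifs with h
  · exact Or.inl ⟨h.2, form_neg σ _⟩
  · exact Or.inr rfl

theorem rhs_ne {m n : ℕ} (hm : 1 ≤ m) {r : Fin (14 * (m * (n + 1)))}
    (h : rhs (K := ℝ) m n r ≠ 0) :
    rhs (K := ℝ) m n r = 1 ∧ (r : ℕ) / 14 / (n + 1) = 0 ∧ (r : ℕ) / 14 % (n + 1) = n ∧
      (r : ℕ) % 14 / 2 = 1 := by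
  unfold rhs at h ⊢
  split_ifs at h ⊢ with h1
  · have h2 : (r : ℕ) / 14 = n := by omega
    refine ⟨rfl, ?_, ?_, by omega⟩
    · rw [h2]
      exact Nat.div_eq_of_lt (by omega)
    · rw [h2]
      exact Nat.mod_eq_of_lt (by omega)
  · exact absurd rfl h

theorem base_data {N i j κ : ℕ} (hκ : κ < 7) {t : Term} (ht : t ∈ base N i j κ)
    (h : t.2.2 ≠ [2]) : κ = 4 ∧ t.1 = col N i j 3 := by
  interval_cases κ
  · simp [base] at ht
    rcases ht with rfl | rfl | rfl <;> exact absurd rfl h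
  · unfold base at ht
    simp only [one_ne_zero, if_false, if_true] at ht
    split_ifs at ht <;> simp only [List.mem_cons, List.not_mem_nil, or_false] at ht
    · subst ht; exact absurd rfl h
    · rcases ht with rfl | rfl | rfl <;> exact absurd rfl h
  · unfold base at ht
    simp only [OfNat.ofNat_ne_zero, OfNat.ofNat_ne_one, if_false, if_true] at ht
    split_ifs at ht <;> simp only [List.mem_cons, List.not_mem_nil, or_false] at ht
    · rcases ht with rfl | rfl <;> exact absurd rfl h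
    · rcases ht with rfl | rfl | rfl <;> exact absurd rfl h
  · simp [base] at ht
    rcases ht with rfl | rfl <;> exact absurd rfl h
  · refine ⟨rfl, ?_⟩
    by_cases hjn : j + 1 = N
    · simp [base, hjn] at ht
      rcases ht with rfl | rfl
      · exact absurd rfl h
      · rfl
    · simp [base, hjn] at ht
      rcases ht with rfl | rfl
      · exact absurd rfl h
      · rfl
  · simp [base] at ht
    rcases ht with rfl | rfl | rfl <;> exact absurd rfl h
  · unfold base at ht
    norm_num at ht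
    split_ifs at ht
    · simp at ht
      subst ht; exact absurd rfl h
    · simp at ht
      rcases ht with rfl | rfl <;> exact absurd rfl h

theorem gridNetwork {m n : ℕ} (hm : 1 ≤ m) (A : Matrix (Fin m) (Fin n) ℝ) (b : Fin m → ℝ) :
    GridNetwork (mat A b) (rhs m n) := by
  have hσ1 : start A b [2] = 1 := rfl
  set P : Fin (14 * (m * (n + 1))) → ℤ × ℤ :=
    fun r => ppt (r / 14 / (n + 1)) (r / 14 % (n + 1)) (r % 14 / 2) with hP
  set Q : Fin (7 * (m * (n + 1))) → ℤ × ℤ := fun c => qpt (c / 7 / (n + 1)) (c / 7 % (n + 1)) (c % 7) with hQ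
  have hQcol : ∀ i j l (hj : j < (n + 1)) (hl : l < 7) (c : Fin (7 * (m * (n + 1)))),
      col (n + 1) i j l = c → Q c = qpt i j l := by
    intro i j l hj hl c hc
    simp only [hQ]
    rw [← hc, col_div hj hl, col_mod hj hl, col_kind hl]
  have key : ∀ (r : Fin (14 * (m * (n + 1)))) (c : Fin (7 * (m * (n + 1)))), mat A b r c ≠ 0 →
      ∃ d ∈ dirs ((c : ℕ) % 7), P r = Q c + d := by
    intro r c hrc
    obtain ⟨h1, h2, h3, h4⟩ := decode r.2
    obtain ⟨t, ht, htc⟩ := exists_of_look_ne hrc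
    unfold row at ht
    obtain ⟨t', ht', rfl⟩ := List.mem_map.1 ht
    obtain ⟨t'', ht'', h5, -⟩ := mem_cterms ht'
    obtain ⟨i', j', l, h6, h7, h8, d, h9, h10⟩ := base_dirs h2 h3 ht''
    have h11 : col (n + 1) i' j' l = c := by rw [← h6, h5]; exact htc
    refine ⟨d, ?_, ?_⟩
    · rw [← h11, col_kind h8]
      exact h9
    · rw [hQcol i' j' l h7 h8 c h11]
      exact h10
  have data : ∀ (r : Fin (14 * (m * (n + 1)))) (c : Fin (7 * (m * (n + 1)))),
      ¬ (mat A b r c = 0 ∨ mat A b r c = 1 ∨ mat A b r c = -1) →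
      P r = ppt ((c : ℕ) / 7 / (n + 1)) ((c : ℕ) / 7 % (n + 1)) 4 := by
    intro r c hrc
    obtain ⟨h1, h2, h3, h4⟩ := decode r.2
    have hne : mat A b r c ≠ 0 := fun h => hrc (Or.inl h)
    obtain ⟨t, ht, htc⟩ := exists_of_look_ne hne
    have htv : mat A b r c = t.2 := by
      unfold mat
      rw [← htc]
      exact look_of_mem (row_nodup _ _ _) ht
    unfold row at ht
    obtain ⟨t', ht', rfl⟩ := List.mem_map.1 ht
    obtain ⟨t'', ht'', h5, h6⟩ := mem_cterms ht'
    have h7 : t''.2.2 ≠ [2] := by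
      intro h8
      rw [h6] at h8
      apply hrc
      right
      rw [htv]
      simp only [tval, h8, st_eq_start, hσ1]
      split_ifs
      · exact Or.inr rfl
      · exact Or.inl rfl
    obtain ⟨h9, h10⟩ := base_data h3 ht'' h7
    rw [h5] at h10
    have h11 : (c : ℕ) = col (n + 1) ((r : ℕ) / 14 / (n + 1)) ((r : ℕ) / 14 % (n + 1)) 3 := by
      rw [← h10]; exact htc.symm
    simp only [hP]
    rw [h9, h11, col_div h2 (by norm_num), col_mod h2 (by norm_num)]
  refine ⟨P, Q, ?_, ?_, ?_, ?_, ?_, ?_, ?_, ?_, ?_, ?_⟩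
  · intro c c' h
    obtain ⟨h1, h2, h3⟩ := qpt_inj (Nat.mod_lt _ (by norm_num)) (Nat.mod_lt _ (by norm_num)) h
    have h4 : (c : ℕ) / 7 = c' / 7 := by
      rw [← Nat.div_add_mod' ((c : ℕ) / 7) (n + 1), h1, h2, Nat.div_add_mod']
    exact Fin.ext (by omega)
  · intro r
    exact ppt_odd (decode r.2).2.2.1
  · intro c
    exact qpt_even (Nat.mod_lt _ (by norm_num))
  · intro r c hrc
    obtain ⟨d, hd, h⟩ := key r c hrc
    rw [h]
    simpa using dirs_unit hd
  · intro c
    have hsub : {p | ∃ i, mat A b i c ≠ 0 ∧ P i = p} ⊆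
        (((dirs ((c : ℕ) % 7)).map fun d => Q c + d).toFinset : Set (ℤ × ℤ)) := by
      rintro p ⟨r, hr, rfl⟩
      obtain ⟨d, hd, h⟩ := key r c hr
      simp only [List.coe_toFinset, List.mem_map, Set.mem_setOf_eq]
      exact ⟨d, hd, h.symm⟩
    refine (Set.ncard_le_ncard hsub (Finset.finite_toSet _)).trans ?_
    rw [Set.ncard_coe_finset]
    refine (List.toFinset_card_le _).trans ?_
    rw [List.length_map]
    exact dirs_length _
  · intro r r' h
    obtain ⟨h1, h2, h3, h4⟩ := decode r.2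
    obtain ⟨h1', h2', h3', h4'⟩ := decode r'.2
    obtain ⟨g1, g2, g3⟩ := ppt_inj h3 h3' h
    have g4 : (r : ℕ) / 14 = r' / 14 := by
      rw [← Nat.div_add_mod' ((r : ℕ) / 14) (n + 1), g1, g2, Nat.div_add_mod']
    have hb : rhs (K := ℝ) m n r = rhs m n r' := by
      unfold rhs
      have : ((r : ℕ) = 14 * n + 2 ∨ (r : ℕ) = 14 * n + 3) ↔
          ((r' : ℕ) = 14 * n + 2 ∨ (r' : ℕ) = 14 * n + 3) := by
        constructor <;> intro h <;> omega
      simp only [this]
    have e : mat A b r = form _ (start A b) (cterms (n + 1) (r / 14 / (n + 1)) (r / 14 % (n + 1)) (r % 14 / 2) (r % 2)) :=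
      mat_row A b r
    have e' : mat A b r' =
        form _ (start A b) (cterms (n + 1) (r / 14 / (n + 1)) (r / 14 % (n + 1)) (r % 14 / 2) (r' % 2)) := by
      rw [mat_row A b r']
      unfold terms
      rw [g1, g2, g3]
    have hbase : ¬ Ineq (n + 1) (r / 14 / (n + 1)) (r / 14 % (n + 1)) (r % 14 / 2) → rhs (K := ℝ) m n r = 0 := by
      intro hI
      by_contra hne
      obtain ⟨-, k1, k2, k3⟩ := rhs_ne hm hne
      exact hI (Or.inl ⟨k3, k1⟩)
    rcases form_cterms (M := 7 * (m * (n + 1))) (start A b) (n + 1) (r / 14 / (n + 1)) (r / 14 % (n + 1)) (r % 14 / 2) (r % 2) with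
      ⟨k1, k2⟩ | k2 <;>
    rcases form_cterms (M := 7 * (m * (n + 1))) (start A b) (n + 1) (r / 14 / (n + 1)) (r / 14 % (n + 1)) (r % 14 / 2) (r' % 2) with
      ⟨k3, k4⟩ | k4
    · exact Or.inl ⟨by rw [e, e', k2, k4], hb⟩
    · exact Or.inr ⟨by rw [e, e', k2, k4], hbase k1, by rw [← hb, hbase k1]⟩
    · exact Or.inr ⟨by rw [e, e', k2, k4, neg_neg], hbase k3, by rw [← hb, hbase k3]⟩
    · exact Or.inl ⟨by rw [e, e', k2, k4], hb⟩
  · intro r
    obtain ⟨h1, h2, h3, h4⟩ := decode r.2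
    rw [mat_row A b r]
    unfold terms
    have hs := simple_base (σ := start A b) hσ1 h1 h2 h3
    rcases form_cterms (M := 7 * (m * (n + 1))) (start A b) (n + 1) (r / 14 / (n + 1)) (r / 14 % (n + 1)) (r % 14 / 2) (r % 2) with
      ⟨-, k2⟩ | k2
    · rw [k2]
      exact simple_neg hs
    · rw [k2]
      exact hs
  · intro r r' c hr hr'
    rw [data r c hr, data r' c hr']
  · intro r hr
    obtain ⟨h1, h2, h3, h4⟩ := rhs_ne hm hr
    refine ⟨h1, ⟨col (n + 1) 0 n 3, col_lt (by omega) (by omega) (by norm_num)⟩, ?_⟩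
    rw [mat_row A b r]
    unfold terms
    rw [h2, h3, h4, ← form1 (σ := start A b) hσ1]
    simp [cterms, Ineq, base]
  · intro r r' hr hr'
    obtain ⟨-, h2, h3, h4⟩ := rhs_ne hm hr
    obtain ⟨-, h2', h3', h4'⟩ := rhs_ne hm hr'
    simp only [hP]
    rw [h2, h3, h4, h2', h3', h4']

end Run7.h715.PL
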