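import Pool.Agent.Run7.h715.PL.Defs

set_option autoImplicit false

/-!
# Planar networks: the system of an instance is solvable if and only if the instance is
-/

namespace Run7.h715.PL

open Pool.Agent.H558R2 Pool.Agent.H622R3.SM

/-! ### Lists of terms -/

section look

variable {K : Type} [AddCommGroup K]

theorem look_nil (c : ℕ) : look ([] : List (ℕ × K)) c = 0 := rfl

theorem look_cons (t : ℕ × K) (L : List (ℕ × K)) (c : ℕ) :
    look (t :: L) c = (if t.1 = c then t.2 else 0) + look L c := by
  simp [look]

theorem look_eq_zero {L : List (ℕ × K)} {c : ℕ} (h : ∀ t ∈ L, t.1 ≠ c) : look L c = 0 := by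
  induction L with
  | nil => rfl
  | cons t L ih =>
    rw [look_cons, if_neg (h t List.mem_cons_self), zero_add]
    exact ih fun u hu => h u (List.mem_cons_of_mem _ hu)

theorem look_of_mem {L : List (ℕ × K)} (hL : (L.map Prod.fst).Nodup) {t : ℕ × K} (ht : t ∈ L) :
    look L t.1 = t.2 := by
  induction L with
  | nil => simp at ht
  | cons u L ih =>
    rw [List.map_cons, List.nodup_cons] at hL
    rw [look_cons]
    rcases List.mem_cons.1 ht with rfl | ht
    · rw [if_pos rfl, look_eq_zero, add_zero]
      intro v hv hvt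
      exact hL.1 (List.mem_map.2 ⟨v, hv, hvt⟩)
    · rw [if_neg, zero_add]
      · exact ih hL.2 ht
      · intro hut
        exact hL.1 (List.mem_map.2 ⟨t, ht, hut.symm⟩)

theorem exists_of_look_ne {L : List (ℕ × K)} {c : ℕ} (h : look L c ≠ 0) : ∃ t ∈ L, t.1 = c := by
  by_contra hn
  push Not at hn
  exact h (look_eq_zero hn)

theorem look_map_neg (L : List (ℕ × K)) (c : ℕ) :
    look (L.map fun t => (t.1, -t.2)) c = -look L c := by
  induction L with
  | nil => simp [look]
  | cons t L ih =>
    rw [List.map_cons, look_cons, ih, look_cons, neg_add]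
    congr 1
    by_cases h : t.1 = c
    · simp [h]
    · simp [h]

end look

theorem sum_look {M : ℕ} (L : List (ℕ × ℝ)) (hL : ∀ t ∈ L, t.1 < M) (z : ℕ → ℝ) :
    ∑ c : Fin M, look L c * z c = (L.map fun t => t.2 * z t.1).sum := by
  induction L with
  | nil => simp [look]
  | cons t L ih =>
    rw [List.map_cons, List.sum_cons, ← ih fun u hu => hL u (List.mem_cons_of_mem _ hu)]
    have ht := hL t List.mem_cons_self
    simp only [look_cons, add_mul, Finset.sum_add_distrib]
    congr 1
    rw [Finset.sum_eq_single (⟨t.1, ht⟩ : Fin M)]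
    · simp
    · intro c _ hc
      rw [if_neg, zero_mul]
      intro h
      exact hc (Fin.ext h.symm)
    · intro h
      exact absurd (Finset.mem_univ _) h

/-! ### The linear forms -/

/-- The value of a linear form. -/
def lin (σ : Reg → ℝ) (L : List Term) (z : ℕ → ℝ) : ℝ :=
  (L.map fun t => tval σ t.2 * z t.1).sum

theorem lin_neg (σ : Reg → ℝ) (L : List Term) (z : ℕ → ℝ) :
    lin σ (L.map fun t => (t.1, (!t.2.1, t.2.2))) z = -lin σ L z := by
  unfold lin
  induction L with
  | nil => simp
  | cons t L ih =>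
    rw [List.map_cons, List.map_cons, List.sum_cons, ih, List.map_cons, List.sum_cons, neg_add]
    congr 1
    rcases t with ⟨c, b, r⟩
    cases b <;> simp [tval]

/-- The right-hand side of a constraint. -/
def rc (N i j κ : ℕ) : ℝ := if κ = 1 ∧ i = 0 ∧ j + 1 = N then 1 else 0

theorem both_iff (σ : Reg → ℝ) (z : ℕ → ℝ) (N i j κ : ℕ) :
    (∀ s, s < 2 → rc N i j κ ≤ lin σ (cterms N i j κ s) z) ↔
      if Ineq N i j κ then rc N i j κ ≤ lin σ (base N i j κ) z
      else lin σ (base N i j κ) z = 0 := by
  by_cases h : Ineq N i j κ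
  · rw [if_pos h]
    simp only [cterms, h, not_true, and_false, if_false]
    exact ⟨fun H => H 0 (by norm_num), fun H s _ => H⟩
  · rw [if_neg h]
    have hrc : rc N i j κ = 0 := by
      unfold rc
      rw [if_neg]
      rintro ⟨h1, h2, -⟩
      exact h (Or.inl ⟨h1, h2⟩)
    rw [hrc]
    constructor
    · intro H
      have h0 := H 0 (by norm_num)
      have h1 := H 1 (by norm_num)
      have e0 : cterms N i j κ 0 = base N i j κ := by simp [cterms]
      have e1 : cterms N i j κ 1 = (base N i j κ).map fun t => (t.1, (!t.2.1, t.2.2)) := by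
        simp [cterms, h]
      rw [e0] at h0
      rw [e1, lin_neg] at h1
      linarith
    · intro H s hs
      unfold cterms
      split_ifs
      · rw [lin_neg, H, neg_zero]
      · rw [H]

/-- The coefficients of the homogeneous system. -/
def cf (σ : Reg → ℝ) (N i j : ℕ) : ℝ := if j + 1 = N then -σ [1, i] else σ [0, i, j]

/-- All constraints. -/
def AllC (σ : Reg → ℝ) (z : ℕ → ℝ) (m N : ℕ) : Prop :=
  ∀ i j κ, i < m → j < N → κ < 7 →
    if Ineq N i j κ then rc N i j κ ≤ lin σ (base N i j κ) z
    else lin σ (base N i j κ) z = 0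

theorem allC_forward (σ : Reg → ℝ) (hσ : σ [2] = 1) (m n : ℕ) (hm : 1 ≤ m) (z : ℕ → ℝ)
    (h : AllC σ z m (n + 1)) :
    ∃ X : ℕ → ℝ, 1 ≤ X n ∧ ∀ i, i < m →
      0 ≤ ∑ j ∈ Finset.range (n + 1), cf σ (n + 1) i j * X j := by
  set N := n + 1 with hN
  have k0 : ∀ i j, i < m → j < N →
      z (col N i j 0) = z (col N i j 1) + z (col N i j 2) := by
    intro i j hi hj
    have := h i j 0 hi hj (by norm_num)
    simp [Ineq, base, lin, tval, hσ] at this
    linarith
  have k1 : ∀ i j, i + 1 < m → j < N →
      z (col N i j 0) = z (col N (i + 1) j 3) + z (col N i j 1) := by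
    intro i j hi hj
    have := h (i + 1) j 1 hi hj (by norm_num)
    simp [Ineq, base, lin, tval, hσ] at this
    linarith
  have k1' : 1 ≤ z (col N 0 n 3) := by
    have := h 0 n 1 hm (by omega) (by norm_num)
    simpa [Ineq, base, lin, tval, hσ, rc, hN] using this
  have k2 : ∀ i j, i < m → j + 1 < N →
      z (col N i j 0) = z (col N i j 6) + z (col N i j 2) := by
    intro i j hi hj
    have := h i j 2 hi (by omega) (by norm_num)
    have hne : j + 1 ≠ N := by omega
    simp [Ineq, base, lin, tval, hσ, hne] at this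
    linarith
  have k2' : ∀ i, i < m → z (col N i n 2) ≤ z (col N i n 0) := by
    intro i hi
    have := h i n 2 hi (by omega) (by norm_num)
    simp [Ineq, base, lin, tval, hσ, rc, ← hN] at this
    linarith
  have k3 : ∀ i j, i < m → j < N → z (col N i j 3) = z (col N i j 2) := by
    intro i j hi hj
    have := h i j 3 hi hj (by norm_num)
    simp [Ineq, base, lin, tval, hσ] at this
    linarith
  have k4 : ∀ i j, i < m → j < N → z (col N i j 4) = cf σ N i j * z (col N i j 3) := by
    intro i j hi hj
    have := h i j 4 hi hj (by norm_num)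
    unfold cf
    by_cases hj' : j + 1 = N
    · simp [Ineq, base, lin, tval, hσ, hj'] at this
      rw [if_pos hj']
      linarith
    · simp [Ineq, base, lin, tval, hσ, hj'] at this
      rw [if_neg hj']
      linarith
  have k5 : ∀ i j, i < m → j < N →
      z (col N i j 1) = z (col N i j 4) + z (col N i j 5) := by
    intro i j hi hj
    have := h i j 5 hi hj (by norm_num)
    simp [Ineq, base, lin, tval, hσ] at this
    linarith
  have k6 : ∀ i j, i < m → j + 1 < N → z (col N i (j + 1) 5) = z (col N i j 6) := by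
    intro i j hi hj
    have := h i (j + 1) 6 hi hj (by norm_num)
    simp [Ineq, base, lin, tval, hσ] at this
    linarith
  have k6' : ∀ i, i < m → z (col N i 0 5) = 0 := by
    intro i hi
    have := h i 0 6 hi (by omega) (by norm_num)
    simpa [Ineq, base, lin, tval, hσ] using this
  have hX : ∀ i, i < m → ∀ j, j < N → z (col N i j 3) = z (col N 0 j 3) := by
    intro i
    induction i with
    | zero => intro _ j _; rfl
    | succ i ih =>
      intro hi j hj
      rw [← ih (by omega) j hj]
      have e1 := k1 i j hi hj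
      have e2 := k0 i j (by omega) hj
      have e3 := k3 i j (by omega) hj
      linarith
  have hS : ∀ i, i < m → ∀ j, j < N → z (col N i j 1) =
      ∑ k ∈ Finset.range (j + 1), cf σ N i k * z (col N 0 k 3) := by
    intro i hi j
    induction j with
    | zero =>
      intro hj
      rw [k5 i 0 hi hj, k4 i 0 hi hj, k6' i hi, hX i hi 0 hj]
      simp
    | succ j ih =>
      intro hj
      rw [Finset.sum_range_succ, ← ih (by omega), k5 i (j + 1) hi hj, k4 i (j + 1) hi hj,
        hX i hi (j + 1) hj, k6 i j hi hj]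
      have e1 := k2 i j hi hj
      have e2 := k0 i j hi (by omega)
      linarith
  refine ⟨fun j => z (col N 0 j 3), k1', fun i hi => ?_⟩
  rw [← hS i hi n (by omega)]
  have e1 := k2' i hi
  have e2 := k0 i n hi (by omega)
  linarith

/-- The solution of the system which comes from `X`. -/
noncomputable def sol (σ : Reg → ℝ) (N : ℕ) (X : ℕ → ℝ) (c : ℕ) : ℝ :=
  let i := c / 7 / N
  let j := c / 7 % N
  let l := c % 7
  if l = 0 then ∑ k ∈ Finset.range (j + 1), cf σ N i k * X k + X j
  else if l = 1 then ∑ k ∈ Finset.range (j + 1), cf σ N i k * X k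
  else if l = 2 then X j
  else if l = 3 then X j
  else if l = 4 then cf σ N i j * X j
  else if l = 5 then ∑ k ∈ Finset.range j, cf σ N i k * X k
  else ∑ k ∈ Finset.range (j + 1), cf σ N i k * X k

theorem col_div {N i j l : ℕ} (hj : j < N) (hl : l < 7) : col N i j l / 7 / N = i := by
  have h1 : col N i j l / 7 = i * N + j := by unfold col; omega
  rw [h1, add_comm, Nat.add_mul_div_right _ _ (by omega), Nat.div_eq_of_lt hj, zero_add]

theorem col_mod {N i j l : ℕ} (hj : j < N) (hl : l < 7) : col N i j l / 7 % N = j := by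
  have h1 : col N i j l / 7 = i * N + j := by unfold col; omega
  rw [h1, add_comm, Nat.add_mul_mod_self_right, Nat.mod_eq_of_lt hj]

theorem col_kind {N i j l : ℕ} (hl : l < 7) : col N i j l % 7 = l := by
  unfold col; omega

theorem sol_col (σ : Reg → ℝ) (N : ℕ) (X : ℕ → ℝ) (i j l : ℕ) (hj : j < N) (hl : l < 7) :
    sol σ N X (col N i j l) =
      if l = 0 then ∑ k ∈ Finset.range (j + 1), cf σ N i k * X k + X j
      else if l = 1 then ∑ k ∈ Finset.range (j + 1), cf σ N i k * X k
      else if l = 2 then X j
      else if l = 3 then X j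
      else if l = 4 then cf σ N i j * X j
      else if l = 5 then ∑ k ∈ Finset.range j, cf σ N i k * X k
      else ∑ k ∈ Finset.range (j + 1), cf σ N i k * X k := by
  unfold sol
  rw [col_div hj hl, col_mod hj hl, col_kind hl]

theorem allC_backward (σ : Reg → ℝ) (hσ : σ [2] = 1) (m n : ℕ) (X : ℕ → ℝ)
    (hX : 1 ≤ X n) (hB : ∀ i, i < m →
      0 ≤ ∑ j ∈ Finset.range (n + 1), cf σ (n + 1) i j * X j) :
    AllC σ (sol σ (n + 1) X) m (n + 1) := by
  set N := n + 1 with hN
  intro i j κ hi hj hκ
  have c0 := sol_col σ N X i j 0 hj (by norm_num)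
  have c1 := sol_col σ N X i j 1 hj (by norm_num)
  have c2 := sol_col σ N X i j 2 hj (by norm_num)
  have c3 := sol_col σ N X i j 3 hj (by norm_num)
  have c4 := sol_col σ N X i j 4 hj (by norm_num)
  have c5 := sol_col σ N X i j 5 hj (by norm_num)
  have c6 := sol_col σ N X i j 6 hj (by norm_num)
  have d0 := sol_col σ N X (i - 1) j 0 hj (by norm_num)
  have d1 := sol_col σ N X (i - 1) j 1 hj (by norm_num)
  have d6 := sol_col σ N X i (j - 1) 6 (by omega) (by norm_num)
  simp only [one_ne_zero, if_true, if_false, OfNat.ofNat_ne_zero, OfNat.ofNat_ne_one]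
    at c0 c1 c2 c3 c4 c5 c6 d0 d1 d6
  norm_num at c2 c3 c4 c5 c6 d6
  interval_cases κ
  · simp [Ineq, base, lin, tval, hσ, c0, c1, c2]
    ring
  · by_cases hi0 : i = 0
    · subst hi0
      by_cases hjn : j + 1 = N
      · have : j = n := by omega
        subst this
        simp only [Ineq, base, lin, tval, rc, hjn]
        simpa [c3, hσ] using hX
      · simp [Ineq, base, lin, rc, hjn]
    · simp [Ineq, base, lin, tval, hσ, hi0, d0, d1, c3]
  · by_cases hjn : j + 1 = N
    · have : j = n := by omega
      subst this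
      have := hB i hi
      simpa [Ineq, base, lin, tval, hσ, rc, c0, c2, ← hN] using this
    · simp [Ineq, base, lin, tval, hσ, hjn, c0, c6, c2]
      ring
  · simp [Ineq, base, lin, tval, hσ, c3, c2]
  · by_cases hjn : j + 1 = N
    · simp [Ineq, base, lin, tval, hσ, hjn, c3, c4, cf]
    · simp [Ineq, base, lin, tval, hσ, hjn, c3, c4, cf]
  · simp [Ineq, base, lin, tval, hσ, c1, c4, c5, Finset.sum_range_succ]
  · by_cases hj0 : j = 0
    · subst hj0
      simp [Ineq, base, lin, tval, hσ, c5]
    · have : j - 1 + 1 = j := by omega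
      rw [this] at d6
      simp [Ineq, base, lin, tval, hσ, hj0, c5, d6]

end Run7.h715.PL
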